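import Mathlib

set_option autoImplicit false

namespace Pool.Agent.CYD

open Polynomial

/-- `1 + X ^ d + ... + X ^ ((q - 1) d)`. -/
noncomputable def G (q d : ℕ) : ℝ[X] := ∑ j ∈ Finset.range q, X ^ (j * d)

/-- The sign of a Boolean. -/
def sg (b : Bool) : ℝ := if b then 1 else -1

/-- The product of all factors. -/
noncomputable def F (q : ℕ) : List (ℕ × Bool) → ℝ[X]
  | [] => 1
  | (a :: l) => G q a.1 * F q l

/-- The Wronskian, built factor by factor. -/
noncomputable def W (q : ℕ) : List (ℕ × Bool) → ℝ[X]
  | [] => 0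
  | (a :: l) => G q a.1 * W q l + C (sg a.2) * (F q l * (X * derivative (G q a.1)))

/-- The sum of the exponents. -/
def Sm : List (ℕ × Bool) → ℕ
  | [] => 0
  | (a :: l) => a.1 + Sm l

/-- Superincreasing from the right. -/
def Gd (q : ℕ) : List (ℕ × Bool) → Prop
  | [] => True
  | (a :: l) => (q - 1) * Sm l < a.1 ∧ Gd q l

/-- Number of changes. -/
def chB : List Bool → ℕ
  | [] => 0
  | [_] => 0
  | (a :: b :: l) => chB (b :: l) + if a = b then 0 else 1

theorem sg_cases (b : Bool) : sg b = 1 ∨ sg b = -1 := by
  cases b <;> simp [sg]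

theorem coeff_G_mul (q d : ℕ) (P : ℝ[X]) (s : ℕ) :
    (G q d * P).coeff s = ∑ j ∈ Finset.range q, if j * d ≤ s then P.coeff (s - j * d) else 0 := by
  rw [G, Finset.sum_mul, finsetSum_coeff]
  exact Finset.sum_congr rfl fun j _ => coeff_X_pow_mul' P (j * d) s

theorem XdG (q d : ℕ) :
    X * derivative (G q d) = ∑ j ∈ Finset.range q, C ((j : ℝ) * d) * X ^ (j * d) := by
  rw [G, derivative_sum, Finset.mul_sum]
  refine Finset.sum_congr rfl fun j _ => ?_
  rw [derivative_X_pow]
  rcases Nat.eq_zero_or_pos (j * d) with h | h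
  · have : (j : ℝ) * d = 0 := by exact_mod_cast h
    simp [h, this]
  · obtain ⟨m, hm⟩ := Nat.exists_eq_succ_of_ne_zero h.ne'
    rw [hm]
    have : (j : ℝ) * d = ((m.succ : ℕ) : ℝ) := by rw [← hm]; push_cast; ring
    rw [this]
    simp only [Nat.succ_sub_one, Nat.succ_eq_add_one]
    ring

theorem coeff_W_cons (q d : ℕ) (b : Bool) (l : List (ℕ × Bool)) (s : ℕ) :
    (W q ((d, b) :: l)).coeff s = ∑ j ∈ Finset.range q, if j * d ≤ s then
      ((W q l).coeff (s - j * d) + sg b * ((j : ℝ) * d) * (F q l).coeff (s - j * d)) else 0 := by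
  rw [W, coeff_add, coeff_G_mul, coeff_C_mul, XdG, mul_comm (F q l), Finset.sum_mul,
    finsetSum_coeff, Finset.mul_sum, ← Finset.sum_add_distrib]
  refine Finset.sum_congr rfl fun j _ => ?_
  rw [mul_assoc, coeff_C_mul, coeff_X_pow_mul']
  split_ifs
  · ring
  · ring

theorem F_nonneg (q : ℕ) : ∀ (l : List (ℕ × Bool)) (s : ℕ), 0 ≤ (F q l).coeff s
  | [], s => by
      rw [F, coeff_one]; split_ifs <;> norm_num
  | (a :: l), s => by
      rw [F, coeff_G_mul]
      refine Finset.sum_nonneg fun j _ => ?_
      split_ifs
      · exact F_nonneg q l _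
      · exact le_rfl

theorem F_zero (q : ℕ) : ∀ (l : List (ℕ × Bool)) (s : ℕ), (q - 1) * Sm l < s →
    (F q l).coeff s = 0
  | [], s, h => by
      rw [F, coeff_one]; rw [if_neg]; simp only [Sm] at h; omega
  | (a :: l), s, h => by
      rw [F, coeff_G_mul]
      refine Finset.sum_eq_zero fun j hj => ?_
      split_ifs with h1
      · apply F_zero q l
        have hj' : j ≤ q - 1 := by have := Finset.mem_range.1 hj; omega
        have h2 : j * a.1 ≤ (q - 1) * a.1 := Nat.mul_le_mul_right _ hj'
        simp only [Sm, Nat.mul_add] at h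
        omega
      · rfl

theorem W_le (q : ℕ) : ∀ (l : List (ℕ × Bool)) (s : ℕ),
    |(W q l).coeff s| ≤ s * (F q l).coeff s
  | [], s => by
      rw [W, coeff_zero, abs_zero]
      exact mul_nonneg (Nat.cast_nonneg _) (F_nonneg q [] s)
  | ((d, b) :: l), s => by
      rw [coeff_W_cons, F, coeff_G_mul, Finset.mul_sum]
      refine (Finset.abs_sum_le_sum_abs _ _).trans (Finset.sum_le_sum fun j _ => ?_)
      split_ifs with h
      · have h1 := W_le q l (s - j * d)
        have h2 := F_nonneg q l (s - j * d)
        have h3 : |sg b| = 1 := by rcases sg_cases b with h | h <;> rw [h] <;> norm_num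
        have h4 : (0 : ℝ) ≤ (j : ℝ) * d := by positivity
        have h5 : ((s - j * d : ℕ) : ℝ) = (s : ℝ) - (j : ℝ) * d := by
          rw [Nat.cast_sub h]; push_cast; ring
        calc |(W q l).coeff (s - j * d) + sg b * ((j : ℝ) * d) * (F q l).coeff (s - j * d)|
            ≤ |(W q l).coeff (s - j * d)| + |sg b * ((j : ℝ) * d) * (F q l).coeff (s - j * d)| :=
              abs_add_le _ _
          _ = |(W q l).coeff (s - j * d)| + (j : ℝ) * d * (F q l).coeff (s - j * d) := by
              rw [abs_mul, abs_mul, h3, one_mul, abs_of_nonneg h4, abs_of_nonneg h2]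
          _ ≤ ((s - j * d : ℕ) : ℝ) * (F q l).coeff (s - j * d) +
              (j : ℝ) * d * (F q l).coeff (s - j * d) := by linarith
          _ = s * (F q l).coeff (s - j * d) := by rw [h5]; ring
      · simp

theorem Gd_pos {q : ℕ} {a : ℕ × Bool} {l : List (ℕ × Bool)} (h : Gd q (a :: l)) : 0 < a.1 :=
  lt_of_le_of_lt (Nat.zero_le _) h.1

theorem F_one {q : ℕ} (hq : 2 ≤ q) : ∀ l : List (ℕ × Bool), Gd q l → (F q l).coeff 0 = 1
  | [], _ => by simp [F]
  | (a :: l), h => by
      rw [F, coeff_G_mul, Finset.sum_eq_single 0]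
      · simpa using F_one hq l h.2
      · intro j _ hj
        have := Gd_pos h
        rw [if_neg]
        have : 0 < j * a.1 := Nat.mul_pos (Nat.pos_of_ne_zero hj) this
        omega
      · intro h0
        exact absurd (Finset.mem_range.2 (by omega)) h0

theorem block (L : ℝ[X]) (d : ℕ) (hL : ∀ s, d ≤ s → L.coeff s = 0) (e : ℝ)
    (he : e = 1 ∨ e = -1) : ∀ (n : ℕ) (H : ℝ[X]), H.support.card = n →
    (∀ s, s < d → H.coeff s = 0) → (∀ s, 0 ≤ e * H.coeff s) → H ≠ 0 →
    signVariations (L + H) ≤ signVariations L +
      (if SignType.sign L.leadingCoeff = - SignType.sign e then 1 else 0) ∧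
    SignType.sign (L + H).leadingCoeff = SignType.sign e := by
  intro n
  induction n using Nat.strong_induction_on with
  | _ n ih =>
    intro H hn h0 hs hH
    have hdeg : L.degree < H.degree := by
      have h1 : L.degree < d := (degree_lt_iff_coeff_zero L d).2 hL
      have h2 : (d : WithBot ℕ) ≤ H.degree := by
        rw [degree_eq_natDegree hH]
        by_contra hlt
        have hlt' : H.natDegree < d := by
          rw [not_le] at hlt
          exact_mod_cast hlt
        exact hH (leadingCoeff_eq_zero.1 (h0 _ hlt'))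
      exact lt_of_lt_of_le h1 h2
    have hlead : (L + H).leadingCoeff = H.leadingCoeff := leadingCoeff_add_of_degree_lt hdeg
    have hlc : H.leadingCoeff ≠ 0 := leadingCoeff_ne_zero.2 hH
    have hsign : SignType.sign (L + H).leadingCoeff = SignType.sign e := by
      rw [hlead]
      have := hs H.natDegree
      rw [coeff_natDegree] at this
      rcases he with he | he
      · rw [he, one_mul] at this
        rw [he, sign_one, sign_pos (lt_of_le_of_ne this hlc.symm)]
      · rw [he] at this
        have h3 : H.leadingCoeff < 0 := lt_of_le_of_ne (by linarith) hlc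
        rw [he, sign_neg h3, sign_neg (by norm_num : (-1 : ℝ) < 0)]
    refine ⟨?_, hsign⟩
    have hne : L + H ≠ 0 := by
      intro h
      rw [h, leadingCoeff_zero] at hlead
      exact hlc hlead.symm
    rw [signVariations_eq_eraseLead_add_ite hne, eraseLead_add_of_degree_lt_right hdeg, hsign]
    by_cases hE : H.eraseLead = 0
    · rw [hE, add_zero]
      refine Nat.add_le_add_left ?_ _
      by_cases h5 : SignType.sign e = - SignType.sign L.leadingCoeff
      · rw [if_pos h5, if_pos]
        rw [h5, neg_neg]
      · rw [if_neg h5]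
        exact Nat.zero_le _
    · have hlt : H.eraseLead.support.card < n := by
        rw [← hn]; exact eraseLead_support_card_lt hH
      obtain ⟨i1, i2⟩ := ih _ hlt H.eraseLead rfl
        (fun s hs' => by
          rw [eraseLead_coeff]; split_ifs
          · rfl
          · exact h0 s hs')
        (fun s => by
          rw [eraseLead_coeff]; split_ifs
          · simp
          · exact hs s) hE
      rw [i2, if_neg, add_zero]
      · exact i1
      · rcases he with he | he
        · rw [he]; simp
        · rw [he]; simp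

theorem W_zero {q d : ℕ} {b : Bool} {l : List (ℕ × Bool)} (h : Gd q ((d, b) :: l)) (s : ℕ)
    (hs : d ≤ s) : (W q l).coeff s = 0 := by
  have h1 := W_le q l s
  rw [F_zero q l s (lt_of_lt_of_le h.1 hs), mul_zero] at h1
  exact abs_nonpos_iff.1 h1

theorem W_low {q d : ℕ} (hq : 2 ≤ q) {b : Bool} {l : List (ℕ × Bool)}
    (h : Gd q ((d, b) :: l)) (s : ℕ) (hs : s < d) :
    (W q ((d, b) :: l)).coeff s = (W q l).coeff s := by
  have hd : 0 < d := Gd_pos h
  rw [coeff_W_cons, Finset.sum_eq_single 0]
  · simp
  · intro j _ hj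
    rw [if_neg]
    have : d ≤ j * d := Nat.le_mul_of_pos_left d (Nat.pos_of_ne_zero hj)
    omega
  · intro h0
    exact absurd (Finset.mem_range.2 (by omega)) h0

theorem step {q : ℕ} (hq : 2 ≤ q) (d : ℕ) (b : Bool) (l : List (ℕ × Bool))
    (h : Gd q ((d, b) :: l)) :
    signVariations (W q ((d, b) :: l)) ≤ signVariations (W q l) +
      (if SignType.sign (W q l).leadingCoeff = - SignType.sign (sg b) then 1 else 0) ∧
    SignType.sign (W q ((d, b) :: l)).leadingCoeff = SignType.sign (sg b) := by
  have hd : 0 < d := Gd_pos h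
  have key := block (W q l) d (W_zero h) (sg b) (sg_cases b)
    (W q ((d, b) :: l) - W q l).support.card (W q ((d, b) :: l) - W q l) rfl ?_ ?_ ?_
  · rwa [add_sub_cancel] at key
  · intro s hs
    rw [coeff_sub, W_low hq h s hs, sub_self]
  · intro s
    rcases Nat.lt_or_ge s d with hs | hs
    · rw [coeff_sub, W_low hq h s hs, sub_self, mul_zero]
    · rw [coeff_sub, W_zero h s hs, sub_zero, coeff_W_cons, Finset.mul_sum]
      refine Finset.sum_nonneg fun j _ => ?_
      split_ifs with hj
      · have h1 := W_le q l (s - j * d)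
        have h2 := F_nonneg q l (s - j * d)
        have he : sg b * sg b = 1 := by
          rcases sg_cases b with h | h <;> rw [h] <;> norm_num
        have habs : |sg b * (W q l).coeff (s - j * d)| = |(W q l).coeff (s - j * d)| := by
          rw [abs_mul]
          rcases sg_cases b with h | h <;> rw [h] <;> norm_num
        have h3 : -|(W q l).coeff (s - j * d)| ≤ sg b * (W q l).coeff (s - j * d) := by
          rw [← habs]; exact neg_abs_le _
        have h4 : sg b * ((W q l).coeff (s - j * d) +
            sg b * ((j : ℝ) * d) * (F q l).coeff (s - j * d)) =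
            sg b * (W q l).coeff (s - j * d) +
            (sg b * sg b) * (((j : ℝ) * d) * (F q l).coeff (s - j * d)) := by ring
        rw [h4, he, one_mul]
        rcases Nat.eq_zero_or_pos j with hj0 | hj0
        · subst hj0
          have := W_zero h s hs
          simp [this]
        · rcases Nat.lt_or_ge ((q - 1) * Sm l) (s - j * d) with hu | hu
          · rw [F_zero q l _ hu, mul_zero] at h1
            rw [F_zero q l _ hu, mul_zero, add_zero, abs_nonpos_iff.1 h1, mul_zero]
          · have h5 : s - j * d ≤ j * d := by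
              have := h.1
              have h6 : d ≤ j * d := Nat.le_mul_of_pos_left d hj0
              simp only at this
              omega
            have h7 : ((s - j * d : ℕ) : ℝ) ≤ (j : ℝ) * d := by exact_mod_cast h5
            have h8 : ((s - j * d : ℕ) : ℝ) * (F q l).coeff (s - j * d) ≤
              (j : ℝ) * d * (F q l).coeff (s - j * d) := mul_le_mul_of_nonneg_right h7 h2
            linarith
      · simp
  · intro h0
    have h1 : (W q ((d, b) :: l) - W q l).coeff d = 0 := by rw [h0, coeff_zero]
    rw [coeff_sub, W_zero h d le_rfl, sub_zero, coeff_W_cons, Finset.sum_eq_single 1] at h1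
    · simp only [one_mul, le_refl, if_true, Nat.sub_self, Nat.cast_one] at h1
      have h2 := W_le q l 0
      rw [Nat.cast_zero, zero_mul] at h2
      rw [abs_nonpos_iff.1 h2, F_one hq l h.2, zero_add, mul_one] at h1
      have h3 : (d : ℝ) ≠ 0 := by exact_mod_cast hd.ne'
      rcases sg_cases b with h | h
      · rw [h, one_mul] at h1; exact h3 h1
      · rw [h] at h1; exact h3 (by linarith)
    · intro j _ hj
      rcases Nat.eq_zero_or_pos j with hj0 | hj0
      · subst hj0
        simp [W_zero h d le_rfl]
      · rw [if_neg]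
        have : 2 * d ≤ j * d := Nat.mul_le_mul_right d (by omega)
        omega
    · intro h5
      exact absurd (Finset.mem_range.2 (by omega)) h5

theorem main {q : ℕ} (hq : 2 ≤ q) : ∀ (l : List (ℕ × Bool)) (a : ℕ × Bool), Gd q (a :: l) →
    signVariations (W q (a :: l)) ≤ chB ((a :: l).map Prod.snd) ∧
    SignType.sign (W q (a :: l)).leadingCoeff = SignType.sign (sg a.2)
  | [], (d, b), h => by
      obtain ⟨h1, h2⟩ := step hq d b [] h
      refine ⟨h1.trans ?_, h2⟩
      rw [W, signVariations_zero, leadingCoeff_zero, sign_zero, if_neg]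
      · simp
      · rcases sg_cases b with h | h <;> rw [h] <;> simp
  | (b' :: l), (d, b), h => by
      obtain ⟨h1, h2⟩ := step hq d b (b' :: l) h
      obtain ⟨i1, i2⟩ := main hq l b' h.2
      refine ⟨h1.trans ?_, h2⟩
      simp only [List.map_cons, chB] at i1 ⊢
      refine Nat.add_le_add i1 ?_
      rw [i2]
      by_cases hb : b = b'.2
      · rw [if_neg]
        · exact Nat.zero_le _
        · rw [← hb]
          rcases sg_cases b with h | h <;> rw [h] <;> simp
      · rw [if_neg hb]
        split_ifs <;> omega

end Pool.Agent.CYD
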