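import Pool.Agent.CYD.Lists

set_option autoImplicit false

namespace Pool.Agent.CYD

open Polynomial

theorem F_one' {q : ℕ} (hq : 2 ≤ q) : ∀ l : List (ℕ × Bool), (∀ a ∈ l, 0 < a.1) →
    (F q l).coeff 0 = 1
  | [], _ => by simp [F]
  | (a :: l), h => by
      have ha := h a List.mem_cons_self
      rw [F, coeff_G_mul, Finset.sum_eq_single 0]
      · simpa using F_one' hq l fun x hx => h x (List.mem_cons_of_mem _ hx)
      · intro j _ hj
        rw [if_neg]
        have : 0 < j * a.1 := Nat.mul_pos (Nat.pos_of_ne_zero hj) ha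
        omega
      · intro h0
        exact absurd (Finset.mem_range.2 (by omega)) h0

theorem W_far {q : ℕ} {l : List (ℕ × Bool)} {s : ℕ} (hs : (q - 1) * Sm l < s) :
    (W q l).coeff s = 0 := by
  have h1 := W_le q l s
  rw [F_zero q l s hs, mul_zero] at h1
  exact abs_nonpos_iff.1 h1

theorem W_low' {q d : ℕ} (hq : 2 ≤ q) (hd : 0 < d) (b : Bool) (l : List (ℕ × Bool)) (s : ℕ)
    (hs : s < d) : (W q ((d, b) :: l)).coeff s = (W q l).coeff s := by
  rw [coeff_W_cons, Finset.sum_eq_single 0]
  · simp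
  · intro j _ hj
    rw [if_neg]
    have : d ≤ j * d := Nat.le_mul_of_pos_left d (Nat.pos_of_ne_zero hj)
    omega
  · intro h0
    exact absurd (Finset.mem_range.2 (by omega)) h0

/-- A block of exponents `ds` with the sign `b` in front of `l`. -/
def bl (ds : List ℕ) (b : Bool) (l : List (ℕ × Bool)) : List (ℕ × Bool) :=
  ds.map (fun d => (d, b)) ++ l

theorem term_nonneg {q d m : ℕ} (b : Bool) (l : List (ℕ × Bool)) (hm : m ≤ d)
    (h : ∀ s, m ≤ s → 0 ≤ sg b * (W q l).coeff s) (s j : ℕ) (hj : 0 < j) :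
    0 ≤ sg b * ((W q l).coeff s + sg b * ((j : ℝ) * d) * (F q l).coeff s) := by
  have h1 := W_le q l s
  have h2 := F_nonneg q l s
  have he : sg b * sg b = 1 := by
    rcases sg_cases b with h | h <;> rw [h] <;> norm_num
  have habs : |sg b * (W q l).coeff s| = |(W q l).coeff s| := by
    rw [abs_mul]
    rcases sg_cases b with h | h <;> rw [h] <;> norm_num
  have h3 : -|(W q l).coeff s| ≤ sg b * (W q l).coeff s := by
    rw [← habs]; exact neg_abs_le _
  have h4 : sg b * ((W q l).coeff s + sg b * ((j : ℝ) * d) * (F q l).coeff s) =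
      sg b * (W q l).coeff s + (sg b * sg b) * (((j : ℝ) * d) * (F q l).coeff s) := by ring
  rw [h4, he, one_mul]
  rcases Nat.lt_or_ge s m with hs | hs
  · have h6 : d ≤ j * d := Nat.le_mul_of_pos_left d hj
    have h5 : s ≤ j * d := by omega
    have h7 : (s : ℝ) ≤ (j : ℝ) * d := by exact_mod_cast h5
    have h8 := mul_le_mul_of_nonneg_right h7 h2
    linarith
  · have h5 : (0 : ℝ) ≤ (j : ℝ) * d * (F q l).coeff s := by positivity
    have := h s hs
    linarith

theorem bl_inv {q : ℕ} (hq : 2 ≤ q) (b : Bool) (l : List (ℕ × Bool)) : ∀ ds : List ℕ,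
    (∀ d ∈ ds, (q - 1) * Sm l < d) →
    (∀ s, s < (q - 1) * Sm l + 1 → (W q (bl ds b l)).coeff s = (W q l).coeff s) ∧
    (∀ s, (q - 1) * Sm l + 1 ≤ s → 0 ≤ sg b * (W q (bl ds b l)).coeff s)
  | [], _ => by
      refine ⟨fun s _ => rfl, fun s hs => ?_⟩
      have : (W q l).coeff s = 0 := W_far (by omega)
      simp [bl, this]
  | (d :: ds), h => by
      obtain ⟨i1, i2⟩ := bl_inv hq b l ds fun x hx => h x (List.mem_cons_of_mem _ hx)
      have hd := h d List.mem_cons_self
      have hcons : bl (d :: ds) b l = (d, b) :: bl ds b l := rfl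
      refine ⟨fun s hs => ?_, fun s hs => ?_⟩
      · rw [hcons, W_low' hq (by omega) b _ s (by omega)]
        exact i1 s hs
      · rw [hcons, coeff_W_cons, Finset.mul_sum]
        refine Finset.sum_nonneg fun j _ => ?_
        split_ifs with hj
        · rcases Nat.eq_zero_or_pos j with hj0 | hj0
          · subst hj0
            have := i2 s hs
            simpa using this
          · exact term_nonneg b _ (show (q - 1) * Sm l + 1 ≤ d by omega) i2 _ j hj0
        · simp

theorem bl_ne {q : ℕ} (hq : 2 ≤ q) (b : Bool) (l : List (ℕ × Bool)) (hl : ∀ a ∈ l, 0 < a.1)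
    (d : ℕ) (ds : List ℕ) (h : ∀ x ∈ d :: ds, (q - 1) * Sm l < x) :
    (W q (bl (d :: ds) b l)).coeff d ≠ 0 := by
  obtain ⟨i1, i2⟩ := bl_inv hq b l ds fun x hx => h x (List.mem_cons_of_mem _ hx)
  have hd := h d List.mem_cons_self
  have hcons : bl (d :: ds) b l = (d, b) :: bl ds b l := rfl
  intro h0
  have h1 : sg b * (W q (bl (d :: ds) b l)).coeff d = 0 := by rw [h0, mul_zero]
  rw [hcons, coeff_W_cons, Finset.mul_sum] at h1
  have hnn : ∀ j ∈ Finset.range q, 0 ≤ sg b * (if j * d ≤ d then
      ((W q (bl ds b l)).coeff (d - j * d) + sg b * ((j : ℝ) * d) *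
        (F q (bl ds b l)).coeff (d - j * d)) else 0) := by
    intro j _
    split_ifs with hj
    · rcases Nat.eq_zero_or_pos j with hj0 | hj0
      · subst hj0
        have := i2 d (by omega)
        simpa using this
      · exact term_nonneg b _ (show (q - 1) * Sm l + 1 ≤ d by omega) i2 _ j hj0
    · simp
  have h2 := (Finset.sum_eq_zero_iff_of_nonneg hnn).1 h1 1 (Finset.mem_range.2 (by omega))
  rw [one_mul, if_pos le_rfl, Nat.sub_self] at h2
  have h3 := W_le q (bl ds b l) 0
  rw [Nat.cast_zero, zero_mul] at h3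
  have hpos : ∀ a ∈ bl ds b l, 0 < a.1 := by
    intro a ha
    rw [bl, List.mem_append, List.mem_map] at ha
    rcases ha with ⟨x, hx, rfl⟩ | ha
    · have := h x (List.mem_cons_of_mem _ hx)
      simp only
      omega
    · exact hl a ha
  rw [abs_nonpos_iff.1 h3, F_one' hq _ hpos, zero_add, mul_one, Nat.cast_one, one_mul] at h2
  have h4 : (d : ℝ) ≠ 0 := by
    have : d ≠ 0 := by omega
    exact_mod_cast this
  rcases sg_cases b with h | h
  · rw [h] at h2; apply h4; linarith
  · rw [h] at h2; apply h4; linarith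

theorem bl_step {q : ℕ} (hq : 2 ≤ q) (b : Bool) (l : List (ℕ × Bool)) (hl : ∀ a ∈ l, 0 < a.1)
    (ds : List ℕ) (hne : ds ≠ []) (h : ∀ x ∈ ds, (q - 1) * Sm l < x) :
    signVariations (W q (bl ds b l)) ≤ signVariations (W q l) +
      (if SignType.sign (W q l).leadingCoeff = - SignType.sign (sg b) then 1 else 0) ∧
    SignType.sign (W q (bl ds b l)).leadingCoeff = SignType.sign (sg b) := by
  obtain ⟨i1, i2⟩ := bl_inv hq b l ds h
  have hz : ∀ s, (q - 1) * Sm l + 1 ≤ s → (W q l).coeff s = 0 := fun s hs =>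
    W_far (by omega)
  have key := block (W q l) ((q - 1) * Sm l + 1) hz (sg b) (sg_cases b)
    (W q (bl ds b l) - W q l).support.card (W q (bl ds b l) - W q l) rfl ?_ ?_ ?_
  · rwa [add_sub_cancel] at key
  · intro s hs
    rw [coeff_sub, i1 s hs, sub_self]
  · intro s
    rcases Nat.lt_or_ge s ((q - 1) * Sm l + 1) with hs | hs
    · rw [coeff_sub, i1 s hs, sub_self, mul_zero]
    · rw [coeff_sub, hz s hs, sub_zero]
      exact i2 s hs
  · obtain ⟨d, ds', rfl⟩ := List.exists_cons_of_ne_nil hne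
    intro h0
    have h1 : (W q (bl (d :: ds') b l) - W q l).coeff d = 0 := by rw [h0, coeff_zero]
    rw [coeff_sub, hz d (by have := h d List.mem_cons_self; omega), sub_zero] at h1
    exact bl_ne hq b l hl d ds' h h1

/-- The list of a list of blocks. -/
def flat : List (List ℕ × Bool) → List (ℕ × Bool)
  | [] => []
  | (x :: t) => bl x.1 x.2 (flat t)

/-- Every exponent of a block is larger than `q - 1` times the sum of the lower blocks. -/
def BG (q : ℕ) : List (List ℕ × Bool) → Prop
  | [] => True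
  | (x :: t) => x.1 ≠ [] ∧ (∀ d ∈ x.1, (q - 1) * Sm (flat t) < d) ∧ BG q t

theorem BG_pos {q : ℕ} : ∀ t : List (List ℕ × Bool), BG q t → ∀ a ∈ flat t, 0 < a.1
  | [], _, a, ha => by simp [flat] at ha
  | (x :: t), h, a, ha => by
      rw [flat, bl, List.mem_append, List.mem_map] at ha
      rcases ha with ⟨y, hy, rfl⟩ | ha
      · exact lt_of_le_of_lt (Nat.zero_le _) (h.2.1 y hy)
      · exact BG_pos t h.2.2 a ha

theorem main_blocks {q : ℕ} (hq : 2 ≤ q) : ∀ (t : List (List ℕ × Bool)) (x : List ℕ × Bool),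
    BG q (x :: t) → signVariations (W q (flat (x :: t))) ≤ chB ((x :: t).map Prod.snd) ∧
    SignType.sign (W q (flat (x :: t))).leadingCoeff = SignType.sign (sg x.2)
  | [], x, h => by
      obtain ⟨h1, h2⟩ := bl_step hq x.2 (flat []) (BG_pos (q := q) [] trivial) x.1 h.1 h.2.1
      refine ⟨h1.trans ?_, h2⟩
      rw [flat, W, signVariations_zero, leadingCoeff_zero, sign_zero, if_neg]
      · simp
      · rcases sg_cases x.2 with h | h <;> rw [h] <;> simp
  | (y :: t), x, h => by
      obtain ⟨h1, h2⟩ := bl_step hq x.2 (flat (y :: t)) (BG_pos _ h.2.2) x.1 h.1 h.2.1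
      obtain ⟨i1, i2⟩ := main_blocks hq t y h.2.2
      refine ⟨h1.trans ?_, h2⟩
      simp only [List.map_cons, chB] at i1 ⊢
      refine Nat.add_le_add i1 ?_
      rw [i2]
      by_cases hb : x.2 = y.2
      · rw [if_neg]
        · exact Nat.zero_le _
        · rw [← hb]
          rcases sg_cases x.2 with h | h <;> rw [h] <;> simp
      · rw [if_neg hb]
        split_ifs <;> omega

theorem chB_le : ∀ l : List Bool, chB l ≤ l.length - 1
  | [] => le_rfl
  | [_] => le_rfl
  | (a :: b :: l) => by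
      have := chB_le (b :: l)
      rw [chB]
      simp only [List.length_cons] at this ⊢
      split_ifs <;> omega

end Pool.Agent.CYD
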