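import Pool.Agent.CYD.TM

set_option autoImplicit false

namespace Pool.Agent.CYD

theorem chB_map_not' : ∀ l : List Bool, chB (l.map fun b => !b) = chB l
  | [] => rfl
  | [_] => rfl
  | (a :: b :: l) => by
      have := chB_map_not' (b :: l)
      rw [List.map_cons] at this
      rw [List.map_cons, List.map_cons, chB, chB, this]
      cases a <;> cases b <;> simp

theorem chB_join' : ∀ (l : List Bool) (a b : Bool) (t : List Bool),
    chB (l ++ a :: b :: t) = chB (l ++ [a]) + chB (b :: t) + if a = b then 0 else 1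
  | [], a, b, t => by
      simp only [List.nil_append, chB]; omega
  | [x], a, b, t => by
      simp only [List.cons_append, List.nil_append, chB]; omega
  | (x :: y :: l), a, b, t => by
      have := chB_join' (y :: l) a b t
      simp only [List.cons_append] at this ⊢
      rw [chB, chB, this]; omega

theorem TM_head' : ∀ k, ∃ t, TM k = true :: t
  | 0 => ⟨[], rfl⟩
  | (k + 1) => by
      obtain ⟨t, ht⟩ := TM_head' k
      exact ⟨t ++ (TM k).map (fun b => !b), by rw [TM, ht]; rfl⟩

theorem TM_last' : ∀ k, ∃ t, TM k = t ++ [decide (k % 2 = 0)]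
  | 0 => ⟨[], rfl⟩
  | (k + 1) => by
      obtain ⟨t, ht⟩ := TM_last' k
      refine ⟨TM k ++ t.map (fun b => !b), ?_⟩
      rw [TM]
      conv_lhs => rw [ht]
      rw [List.map_append, List.append_assoc, List.append_assoc, ← List.append_assoc t, ← ht]
      congr 1
      simp only [List.map_cons, List.map_nil]
      congr 2
      rcases Nat.mod_two_eq_zero_or_one k with h | h
      · have : (k + 1) % 2 = 1 := by omega
        simp [h, this]
      · have : (k + 1) % 2 = 0 := by omega
        simp [h, this]

theorem chB_TM_succ (k : ℕ) :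
    chB (TM (k + 1)) = 2 * chB (TM k) + if k % 2 = 0 then 1 else 0 := by
  obtain ⟨t1, h1⟩ := TM_head' k
  obtain ⟨t2, h2⟩ := TM_last' k
  have h3 : (TM k).map (fun b => !b) = false :: t1.map (fun b => !b) := by rw [h1]; rfl
  have h4 := chB_map_not' (TM k)
  rw [h3] at h4
  rw [TM, h3]
  conv_lhs => rw [h2, List.append_assoc]
  rw [List.singleton_append, chB_join', ← h2, h4]
  rcases Nat.mod_two_eq_zero_or_one k with h | h
  · simp [h]; omega
  · simp [h]; omega

theorem chB_TM_eq (k : ℕ) : chB (TM k) = 2 ^ (k + 1) / 3 := by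
  have key : ∀ k : ℕ, (k % 2 = 0 → 2 ^ (k + 1) = 3 * chB (TM k) + 2) ∧
      (k % 2 = 1 → 2 ^ (k + 1) = 3 * chB (TM k) + 1) := by
    intro k
    induction k with
    | zero => simp [TM, chB]
    | succ k ih =>
      rw [chB_TM_succ]
      constructor
      · intro h
        have h1 : k % 2 = 1 := by omega
        have := ih.2 h1
        rw [pow_succ, this, if_neg (by omega)]; ring
      · intro h
        have h1 : k % 2 = 0 := by omega
        have := ih.1 h1
        rw [pow_succ, this, if_pos h1]; ring
  rcases Nat.mod_two_eq_zero_or_one k with h | h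
  · have := (key k).1 h; omega
  · have := (key k).2 h; omega

theorem third_add (k : ℕ) : 2 ^ (k + 1) / 3 + 2 ^ k / 3 ≤ 2 ^ k - 1 := by
  have h1 : ∀ k : ℕ, 2 ^ k % 3 ≠ 0 := by
    intro k h
    have h2 : (3 : ℕ) ∣ 2 ^ k := Nat.dvd_of_mod_eq_zero h
    have h3 := Nat.Prime.dvd_of_dvd_pow Nat.prime_three h2
    norm_num at h3
  have h4 := h1 k
  rw [pow_succ]
  omega

end Pool.Agent.CYD
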