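import Pool.Agent.CYD.Lists
import Pool.Agent.CYD.TM2

set_option autoImplicit false

namespace Pool.Agent.CYD

open Polynomial

theorem expand_comp_neg {p : ℕ} (hp : Odd p) (P : ℝ[X]) :
    (expand ℝ p P).comp (-X) = expand ℝ p (P.comp (-X)) := by
  rw [expand_eq_comp_X_pow, expand_eq_comp_X_pow, comp_assoc, comp_assoc]
  congr 1
  simp only [neg_comp, X_comp, pow_comp]
  exact hp.neg_pow X

theorem neg_side (S : Finset ℕ) (hS : ∀ p ∈ S, p.Prime ∧ p ≠ 2)
    (hsep : ∀ p ∈ S, ∏ r ∈ S.filter (· < p), (r + 1) < p) :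
    derivative (cyclotomic (∏ p ∈ S, p) ℝ) ≠ 0 ∧
    (derivative (cyclotomic (∏ p ∈ S, p) ℝ)).eval 0 ≠ 0 ∧
    (derivative (cyclotomic (∏ p ∈ S, p) ℝ)).roots.countP (· < 0) ≤ chB (TM S.card) := by
  obtain ⟨l, b, hG, -, hTM, ε, hε, hrel⟩ := build (q := 2)
    (fun n => (cyclotomic n ℝ).comp (-X)) ⟨-1, by norm_num, by
      simp only [cyclotomic_one, G, Finset.sum_range_succ, Finset.sum_range_zero, zero_add,
        zero_mul, pow_zero, one_mul, pow_one, sub_comp, X_comp, one_comp, map_neg, map_one]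
      ring⟩ 1 (fun n p hp hp2 hnd => by
      rw [one_mul] at hnd
      have hodd : Odd p := hp.odd_of_ne_two hp2
      rw [← mul_comp, ← cyclotomic_expand_eq_cyclotomic_mul hp hnd ℝ, expand_comp_neg hodd]) S
    (fun p hp => ⟨(hS p hp).1, (hS p hp).2, by
      have := (hS p hp).1.one_lt
      intro h
      have := Nat.le_of_dvd one_pos h
      omega⟩)
    (fun p hp => by simpa using hsep p hp)
  obtain ⟨h1, h2, h3⟩ := roots_bound le_rfl _ l b hG ε hε hrel
  have hd : derivative ((cyclotomic (∏ p ∈ S, p) ℝ).comp (-X)) =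
      C (-1) * (derivative (cyclotomic (∏ p ∈ S, p) ℝ)).comp (-X) := by
    rw [derivative_comp]; simp
  rw [hd] at h1 h2 h3
  rw [hTM] at h3
  refine ⟨?_, ?_, ?_⟩
  · intro h0; rw [h0] at h1; simp at h1
  · intro h0
    apply h2
    simp [eval_comp, h0]
  · rw [roots_C_mul _ (by norm_num : (-1 : ℝ) ≠ 0), roots_comp_neg_X, Multiset.countP_map] at h3
    refine le_trans (le_of_eq ?_) h3
    rw [Multiset.countP_eq_card_filter]
    congr 1
    refine Multiset.filter_congr fun x _ => ?_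
    simp

theorem pos_side (S : Finset ℕ) (hS : ∀ p ∈ S, p.Prime ∧ p ≠ 2) (hne : S.Nonempty)
    (hsep : ∀ p ∈ S, ∏ r ∈ S.filter (· < p), (r + 1) < p) :
    (derivative (cyclotomic (∏ p ∈ S, p) ℝ)).roots.countP (0 < ·) ≤ chB (TM (S.card - 1)) := by
  obtain ⟨a, ha, hmin⟩ : ∃ a ∈ S, ∀ x ∈ S, a ≤ x := ⟨S.min' hne, S.min'_mem hne,
    fun x hx => S.min'_le x hx⟩
  have hap := (hS a ha).1
  have ha2 : 2 ≤ a := hap.two_le
  have : Fact a.Prime := ⟨hap⟩
  obtain ⟨l, b, hG, -, hTM, ε, hε, hrel⟩ := build (q := a)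
    (fun n => cyclotomic (a * n) ℝ) ⟨1, one_ne_zero, by
      simp only [mul_one, cyclotomic_prime, G, map_one, one_mul]⟩ a (fun n p hp hp2 hnd => by
      rw [← mul_assoc, ← cyclotomic_expand_eq_cyclotomic_mul hp hnd ℝ]) (S.erase a)
    (fun p hp => by
      have hpS := Finset.mem_of_mem_erase hp
      refine ⟨(hS p hpS).1, (hS p hpS).2, fun h => ?_⟩
      exact Finset.ne_of_mem_erase hp ((Nat.prime_dvd_prime_iff_eq (hS p hpS).1 hap).1 h))
    (fun p hp => by
      have hpS := Finset.mem_of_mem_erase hp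
      have hlt : a < p := lt_of_le_of_ne (hmin p hpS) (Finset.ne_of_mem_erase hp).symm
      have h1 : S.filter (· < p) = insert a ((S.erase a).filter (· < p)) := by
        ext x
        simp only [Finset.mem_filter, Finset.mem_insert, Finset.mem_erase]
        constructor
        · rintro ⟨h, h'⟩
          by_cases hx : x = a
          · exact Or.inl hx
          · exact Or.inr ⟨⟨hx, h⟩, h'⟩
        · rintro (h | ⟨⟨_, h⟩, h'⟩)
          · rw [h]; exact ⟨ha, hlt⟩
          · exact ⟨h, h'⟩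
      have h2 := hsep p hpS
      rw [h1, Finset.prod_insert (by simp)] at h2
      refine lt_of_le_of_lt (Nat.mul_le_mul_right _ ?_) h2
      omega)
  obtain ⟨h1, h2, h3⟩ := roots_bound ha2 _ l b hG ε hε hrel
  rw [hTM, Finset.card_erase_of_mem ha] at h3
  have hprod : a * ∏ p ∈ S.erase a, p = ∏ p ∈ S, p := Finset.mul_prod_erase S (fun p => p) ha
  simp only [hprod] at h3
  exact h3

theorem upper (S : Finset ℕ) (hS : ∀ p ∈ S, p.Prime ∧ p ≠ 2) (hne : S.Nonempty)
    (hsep : ∀ p ∈ S, ∏ r ∈ S.filter (· < p), (r + 1) < p) :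
    ((derivative (cyclotomic (∏ p ∈ S, p) ℝ)).roots.filter (· < 0)).card ≤
      2 ^ (S.card + 1) / 3 ∧
    ((derivative (cyclotomic (∏ p ∈ S, p) ℝ)).roots.filter (0 < ·)).card ≤
      2 ^ S.card / 3 ∧
    (derivative (cyclotomic (∏ p ∈ S, p) ℝ)).roots.card ≤ 2 ^ S.card - 1 := by
  obtain ⟨h1, h2, h3⟩ := neg_side S hS hsep
  have h4 := pos_side S hS hne hsep
  rw [chB_TM_eq] at h3 h4
  have hc : S.card - 1 + 1 = S.card := Nat.sub_add_cancel hne.card_pos
  rw [hc] at h4
  rw [Multiset.countP_eq_card_filter] at h3 h4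
  refine ⟨h3, h4, ?_⟩
  have h5 : (derivative (cyclotomic (∏ p ∈ S, p) ℝ)).roots.card =
      ((derivative (cyclotomic (∏ p ∈ S, p) ℝ)).roots.filter (· < 0)).card +
      ((derivative (cyclotomic (∏ p ∈ S, p) ℝ)).roots.filter (0 < ·)).card := by
    conv_lhs => rw [← Multiset.filter_add_not (· < 0)
      (derivative (cyclotomic (∏ p ∈ S, p) ℝ)).roots, Multiset.card_add]
    congr 2
    refine Multiset.filter_congr fun x hx => ?_
    constructor
    · intro h
      rcases lt_or_eq_of_le (not_lt.1 h) with h | h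
      · exact h
      · exfalso
        rw [← h] at hx
        exact h2 ((mem_roots h1).1 hx)
    · intro h; exact not_lt.2 h.le
  rw [h5]
  have h6 := third_add S.card
  omega

end Pool.Agent.CYD
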