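import Pool.Agent.CYD.Blocks
import Pool.Agent.CYD.Main
import Pool.Agent.CycCrit.RootMem
import Pool.Agent.CycCrit.Lower

set_option autoImplicit false

namespace Pool.Agent.CYD

open Polynomial

/-- The products of `j` elements of `S`. -/
noncomputable def D (S : Finset ℕ) (j : ℕ) : List ℕ :=
  (S.powersetCard j).toList.map fun T => ∏ r ∈ T, r

/-- The blocks of the grades below `j`. -/
noncomputable def Bl (S : Finset ℕ) : ℕ → List (List ℕ × Bool)
  | 0 => []
  | (j + 1) => (D S j, decide ((S.card - j) % 2 = 0)) :: Bl S j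

theorem length_Bl (S : Finset ℕ) : ∀ j, (Bl S j).length = j
  | 0 => rfl
  | (j + 1) => by rw [Bl, List.length_cons, length_Bl S j]

theorem Sm_bl (ds : List ℕ) (b : Bool) (l : List (ℕ × Bool)) : Sm (bl ds b l) = ds.sum + Sm l := by
  induction ds with
  | nil => simp [bl]
  | cons d ds ih =>
    have : bl (d :: ds) b l = (d, b) :: bl ds b l := rfl
    rw [this, Sm, ih, List.sum_cons]; simp only; ring

theorem A_bl (q : ℕ) (ds : List ℕ) (b : Bool) (l : List (ℕ × Bool)) :
    A q (bl ds b l) = (if b then (ds.map (G q)).prod else 1) * A q l := by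
  induction ds with
  | nil => simp [bl]
  | cons d ds ih =>
    have : bl (d :: ds) b l = (d, b) :: bl ds b l := rfl
    rw [this, A, ih]
    cases b
    · simp
    · simp [mul_assoc]

theorem B_bl (q : ℕ) (ds : List ℕ) (b : Bool) (l : List (ℕ × Bool)) :
    B q (bl ds b l) = (if b then 1 else (ds.map (G q)).prod) * B q l := by
  induction ds with
  | nil => simp [bl]
  | cons d ds ih =>
    have : bl (d :: ds) b l = (d, b) :: bl ds b l := rfl
    rw [this, B, ih]
    cases b
    · simp [mul_assoc]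
    · simp

theorem sum_D (S : Finset ℕ) (j : ℕ) : (D S j).sum = ∑ T ∈ S.powersetCard j, ∏ r ∈ T, r := by
  rw [D, Finset.sum_map_toList]

theorem Sm_Bl (S : Finset ℕ) : ∀ j, Sm (flat (Bl S j)) =
    ∑ i ∈ Finset.range j, ∑ T ∈ S.powersetCard i, ∏ r ∈ T, r
  | 0 => by simp [Bl, flat, Sm]
  | (j + 1) => by
      rw [Bl, flat, Sm_bl, Sm_Bl S j, Finset.sum_range_succ, sum_D]; ring

/-- The sign `true` part. -/
noncomputable def PA (q : ℕ) (S : Finset ℕ) : ℝ[X] :=
  ∏ T ∈ S.powerset, if (S.card - T.card) % 2 = 0 then G q (∏ r ∈ T, r) else 1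

/-- The sign `false` part. -/
noncomputable def PB (q : ℕ) (S : Finset ℕ) : ℝ[X] :=
  ∏ T ∈ S.powerset, if (S.card - T.card) % 2 = 0 then 1 else G q (∏ r ∈ T, r)

theorem A_Bl (q : ℕ) (S : Finset ℕ) : ∀ j, A q (flat (Bl S j)) =
    ∏ i ∈ Finset.range j, ∏ T ∈ S.powersetCard i,
      if (S.card - T.card) % 2 = 0 then G q (∏ r ∈ T, r) else 1
  | 0 => by simp [Bl, flat, A]
  | (j + 1) => by
      rw [Bl, flat, A_bl, A_Bl q S j, Finset.prod_range_succ, mul_comm]
      congr 1
      have h1 : ∏ T ∈ S.powersetCard j, (if (S.card - T.card) % 2 = 0 then G q (∏ r ∈ T, r)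
          else 1) = ∏ T ∈ S.powersetCard j, (if (S.card - j) % 2 = 0 then G q (∏ r ∈ T, r)
          else 1) := Finset.prod_congr rfl fun T hT => by
        rw [(Finset.mem_powersetCard.1 hT).2]
      rw [h1]
      simp only [D, List.map_map, decide_eq_true_eq]
      split_ifs
      · exact Finset.prod_map_toList _ _
      · simp

theorem B_Bl (q : ℕ) (S : Finset ℕ) : ∀ j, B q (flat (Bl S j)) =
    ∏ i ∈ Finset.range j, ∏ T ∈ S.powersetCard i,
      if (S.card - T.card) % 2 = 0 then 1 else G q (∏ r ∈ T, r)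
  | 0 => by simp [Bl, flat, B]
  | (j + 1) => by
      rw [Bl, flat, B_bl, B_Bl q S j, Finset.prod_range_succ, mul_comm]
      congr 1
      have h1 : ∏ T ∈ S.powersetCard j, (if (S.card - T.card) % 2 = 0 then 1
          else G q (∏ r ∈ T, r)) = ∏ T ∈ S.powersetCard j, (if (S.card - j) % 2 = 0 then 1
          else G q (∏ r ∈ T, r)) := Finset.prod_congr rfl fun T hT => by
        rw [(Finset.mem_powersetCard.1 hT).2]
      rw [h1]
      simp only [D, List.map_map, decide_eq_true_eq]
      split_ifs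
      · simp
      · exact Finset.prod_map_toList _ _

theorem A_full (q : ℕ) (S : Finset ℕ) : A q (flat (Bl S (S.card + 1))) = PA q S := by
  rw [A_Bl, PA, Finset.prod_powerset]

theorem B_full (q : ℕ) (S : Finset ℕ) : B q (flat (Bl S (S.card + 1))) = PB q S := by
  rw [B_Bl, PB, Finset.prod_powerset]

theorem PA_insert (q : ℕ) {a : ℕ} {S : Finset ℕ} (ha : a ∉ S) :
    PA q (insert a S) = PB q S * expand ℝ a (PA q S) := by
  rw [PA, Finset.prod_powerset_insert ha, PB, PA, map_prod, Finset.card_insert_of_notMem ha]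
  congr 1
  · refine Finset.prod_congr rfl fun T hT => ?_
    have hc := Finset.card_le_card (Finset.mem_powerset.1 hT)
    by_cases h : (S.card - T.card) % 2 = 0
    · rw [if_neg (by omega), if_pos h]
    · rw [if_pos (by omega), if_neg h]
  · refine Finset.prod_congr rfl fun T hT => ?_
    have haT : a ∉ T := fun h => ha (Finset.mem_powerset.1 hT h)
    rw [Finset.card_insert_of_notMem haT, Finset.prod_insert haT]
    have : S.card + 1 - (T.card + 1) = S.card - T.card := by omega
    rw [this]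
    split_ifs
    · exact G_mul q a _
    · simp

theorem PB_insert (q : ℕ) {a : ℕ} {S : Finset ℕ} (ha : a ∉ S) :
    PB q (insert a S) = PA q S * expand ℝ a (PB q S) := by
  rw [PB, Finset.prod_powerset_insert ha, PA, PB, map_prod, Finset.card_insert_of_notMem ha]
  congr 1
  · refine Finset.prod_congr rfl fun T hT => ?_
    have hc := Finset.card_le_card (Finset.mem_powerset.1 hT)
    by_cases h : (S.card - T.card) % 2 = 0
    · rw [if_neg (by omega), if_pos h]
    · rw [if_pos (by omega), if_neg h]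
  · refine Finset.prod_congr rfl fun T hT => ?_
    have haT : a ∉ T := fun h => ha (Finset.mem_powerset.1 hT h)
    rw [Finset.card_insert_of_notMem haT, Finset.prod_insert haT]
    have : S.card + 1 - (T.card + 1) = S.card - T.card := by omega
    rw [this]
    split_ifs
    · simp
    · exact G_mul q a _

theorem rel (q : ℕ) (f : ℕ → ℝ[X]) (hf : ∃ ε : ℝ, ε ≠ 0 ∧ f 1 = C ε * G q 1) (n0 : ℕ)
    (hstep : ∀ n p : ℕ, p.Prime → p ≠ 2 → ¬ p ∣ n0 * n → f (n * p) * f n = expand ℝ p (f n))
    (S : Finset ℕ) : (∀ p ∈ S, p.Prime ∧ p ≠ 2 ∧ ¬ p ∣ n0) →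
    ∃ ε : ℝ, ε ≠ 0 ∧ f (∏ p ∈ S, p) * PB q S = C ε * PA q S := by
  induction S using Finset.induction_on with
  | empty =>
    intro _
    obtain ⟨ε, h1, h2⟩ := hf
    exact ⟨ε, h1, by simp [PA, PB, h2]⟩
  | insert a s ha ih =>
    intro hS
    obtain ⟨ε, hε, hrel⟩ := ih fun p hp => hS p (Finset.mem_insert_of_mem hp)
    obtain ⟨hap, ha2, han⟩ := hS a (Finset.mem_insert_self a s)
    refine ⟨1, one_ne_zero, ?_⟩
    rw [PA_insert q ha, PB_insert q ha, Finset.prod_insert ha, mul_comm a]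
    have hnd : ¬ a ∣ n0 * ∏ p ∈ s, p := by
      intro h
      rcases (Nat.Prime.dvd_mul hap).1 h with h | h
      · exact han h
      · obtain ⟨p, hp, hd⟩ := (Prime.dvd_finsetProd_iff hap.prime _).1 h
        have := (Nat.prime_dvd_prime_iff_eq hap (hS p (Finset.mem_insert_of_mem hp)).1).1 hd
        exact ha (this ▸ hp)
    have hs := hstep (∏ p ∈ s, p) a hap ha2 hnd
    have hCε : (C ε : ℝ[X]) ≠ 0 := by simpa using hε
    apply mul_left_cancel₀ hCε
    calc C ε * (f ((∏ p ∈ s, p) * a) * (PA q s * expand ℝ a (PB q s)))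
        = f ((∏ p ∈ s, p) * a) * expand ℝ a (PB q s) * (C ε * PA q s) := by ring
      _ = (f ((∏ p ∈ s, p) * a) * f (∏ p ∈ s, p)) * expand ℝ a (PB q s) * PB q s := by
          rw [← hrel]; ring
      _ = expand ℝ a (f (∏ p ∈ s, p) * PB q s) * PB q s := by rw [hs, map_mul]
      _ = C ε * (C 1 * (PB q s * expand ℝ a (PA q s))) := by
          rw [hrel, map_mul, expand_C, C_1, one_mul]; ring

theorem roots_bound' {q : ℕ} (P : ℝ[X]) (L : List (ℕ × Bool)) (hW : W q L ≠ 0)
    (ε : ℝ) (hε : ε ≠ 0) (h : P * B q L = C ε * A q L) :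
    (derivative P).roots.countP (0 < ·) ≤ signVariations (W q L) := by
  have key : derivative P * (X * (B q L) ^ 2) = C ε * W q L := by
    have h1 : derivative P * B q L + P * derivative (B q L) = C ε * derivative (A q L) := by
      have := congrArg derivative h
      rwa [derivative_mul, derivative_C_mul] at this
    rw [W_eq]
    calc derivative P * (X * (B q L) ^ 2)
        = X * ((derivative P * B q L + P * derivative (B q L)) * B q L -
            (P * B q L) * derivative (B q L)) := by ring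
      _ = C ε * (X * (derivative (A q L) * B q L - A q L * derivative (B q L))) := by
          rw [h1, h]; ring
  have hCε : (C ε : ℝ[X]) ≠ 0 := by simpa using hε
  have hne : C ε * W q L ≠ 0 := mul_ne_zero hCε hW
  have h1 : (derivative P).roots ≤ (C ε * W q L).roots :=
    roots.le_of_dvd hne ⟨_, key.symm⟩
  rw [roots_C_mul _ hε] at h1
  exact (Multiset.countP_le_of_le _ h1).trans (roots_countP_pos_le_signVariations _)

theorem BG_Bl {q : ℕ} (S : Finset ℕ)
    (hG : ∀ T ⊆ S, (q - 1) * ∑ i ∈ Finset.range T.card, ∑ U ∈ S.powersetCard i, ∏ r ∈ U, r <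
      ∏ r ∈ T, r) : ∀ j, j ≤ S.card + 1 → BG q (Bl S j)
  | 0, _ => trivial
  | (j + 1), hj => by
      refine ⟨?_, ?_, BG_Bl S hG j (by omega)⟩
      · have h1 : (S.powersetCard j).Nonempty := Finset.powersetCard_nonempty.2 (by omega)
        simp only [D]
        intro h
        rw [List.map_eq_nil_iff, Finset.toList_eq_nil] at h
        exact h1.ne_empty h
      · intro d hd
        simp only [D, List.mem_map, Finset.mem_toList, Finset.mem_powersetCard] at hd
        obtain ⟨T, ⟨hT, hc⟩, rfl⟩ := hd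
        have := hG T hT
        rw [hc] at this
        rw [Sm_Bl]
        exact this

theorem graded_side {q : ℕ} (hq : 2 ≤ q) (f : ℕ → ℝ[X])
    (hf : ∃ ε : ℝ, ε ≠ 0 ∧ f 1 = C ε * G q 1) (n0 : ℕ)
    (hstep : ∀ n p : ℕ, p.Prime → p ≠ 2 → ¬ p ∣ n0 * n → f (n * p) * f n = expand ℝ p (f n))
    (S : Finset ℕ) (hS : ∀ p ∈ S, p.Prime ∧ p ≠ 2 ∧ ¬ p ∣ n0)
    (hG : ∀ T ⊆ S, (q - 1) * ∑ i ∈ Finset.range T.card, ∑ U ∈ S.powersetCard i, ∏ r ∈ U, r <
      ∏ r ∈ T, r) :
    (derivative (f (∏ p ∈ S, p))).roots.countP (0 < ·) ≤ S.card := by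
  obtain ⟨ε, hε, hrel⟩ := rel q f hf n0 hstep S hS
  rw [← A_full, ← B_full] at hrel
  have hBG := BG_Bl S hG (S.card + 1) le_rfl
  obtain ⟨h1, h2⟩ := main_blocks hq (Bl S S.card) (D S S.card, decide ((S.card - S.card) % 2 = 0))
    hBG
  have hW : W q (flat (Bl S (S.card + 1))) ≠ 0 := by
    intro h0
    rw [← Bl, h0, leadingCoeff_zero, sign_zero] at h2
    rcases sg_cases (decide ((S.card - S.card) % 2 = 0)) with h | h
    · rw [h] at h2; simp at h2
    · rw [h] at h2; simp at h2
  have h3 := roots_bound' _ _ hW ε hε hrel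
  rw [← Bl] at h1
  refine h3.trans (h1.trans ((chB_le _).trans ?_))
  rw [List.length_map, length_Bl]
  omega

theorem graded_neg (S : Finset ℕ) (hS : ∀ p ∈ S, p.Prime ∧ p ≠ 2)
    (hG : ∀ T ⊆ S, ∑ i ∈ Finset.range T.card, ∑ U ∈ S.powersetCard i, ∏ r ∈ U, r <
      ∏ r ∈ T, r) :
    (derivative (cyclotomic (∏ p ∈ S, p) ℝ)).roots.countP (· < 0) ≤ S.card := by
  have h3 := graded_side (q := 2) le_rfl
    (fun n => (cyclotomic n ℝ).comp (-X)) ⟨-1, by norm_num, by
      simp only [cyclotomic_one, G, Finset.sum_range_succ, Finset.sum_range_zero, zero_add,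
        zero_mul, pow_zero, one_mul, pow_one, sub_comp, X_comp, one_comp, map_neg, map_one]
      ring⟩ 1 (fun n p hp hp2 hnd => by
      rw [one_mul] at hnd
      have hodd : Odd p := hp.odd_of_ne_two hp2
      rw [← mul_comp, ← cyclotomic_expand_eq_cyclotomic_mul hp hnd ℝ, expand_comp_neg hodd]) S
    (fun p hp => ⟨(hS p hp).1, (hS p hp).2, by
      have := (hS p hp).1.one_lt
      intro h
      have := Nat.le_of_dvd one_pos h
      omega⟩)
    (fun T hT => by simpa using hG T hT)
  have hd : derivative ((cyclotomic (∏ p ∈ S, p) ℝ).comp (-X)) =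
      C (-1) * (derivative (cyclotomic (∏ p ∈ S, p) ℝ)).comp (-X) := by
    rw [derivative_comp]; simp
  rw [hd, roots_C_mul _ (by norm_num : (-1 : ℝ) ≠ 0), roots_comp_neg_X,
    Multiset.countP_map] at h3
  refine le_trans (le_of_eq ?_) h3
  rw [Multiset.countP_eq_card_filter]
  congr 1
  refine Multiset.filter_congr fun x _ => ?_
  simp

theorem graded_pos (S : Finset ℕ) (hS : ∀ p ∈ S, p.Prime ∧ p ≠ 2) (a : ℕ) (ha : a ∈ S)
    (hG : ∀ T ⊆ S.erase a, (a - 1) * ∑ i ∈ Finset.range T.card,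
      ∑ U ∈ (S.erase a).powersetCard i, ∏ r ∈ U, r < ∏ r ∈ T, r) :
    (derivative (cyclotomic (∏ p ∈ S, p) ℝ)).roots.countP (0 < ·) ≤ S.card - 1 := by
  have hap := (hS a ha).1
  have : Fact a.Prime := ⟨hap⟩
  have h3 := graded_side (q := a) hap.two_le
    (fun n => cyclotomic (a * n) ℝ) ⟨1, one_ne_zero, by
      simp only [mul_one, cyclotomic_prime, G, map_one, one_mul]⟩ a (fun n p hp hp2 hnd => by
      rw [← mul_assoc, ← cyclotomic_expand_eq_cyclotomic_mul hp hnd ℝ]) (S.erase a)
    (fun p hp => by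
      have hpS := Finset.mem_of_mem_erase hp
      refine ⟨(hS p hpS).1, (hS p hpS).2, fun h => ?_⟩
      exact Finset.ne_of_mem_erase hp ((Nat.prime_dvd_prime_iff_eq (hS p hpS).1 hap).1 h))
    hG
  rw [Finset.card_erase_of_mem ha] at h3
  have hprod : a * ∏ p ∈ S.erase a, p = ∏ p ∈ S, p := Finset.mul_prod_erase S (fun p => p) ha
  simp only [hprod] at h3
  exact h3

theorem graded (S : Finset ℕ) (hS : ∀ p ∈ S, p.Prime ∧ p ≠ 2) (a : ℕ) (ha : a ∈ S)
    (hG : ∀ T ⊆ S, ∑ i ∈ Finset.range T.card, ∑ U ∈ S.powersetCard i, ∏ r ∈ U, r <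
      ∏ r ∈ T, r)
    (hG' : ∀ T ⊆ S.erase a, (a - 1) * ∑ i ∈ Finset.range T.card,
      ∑ U ∈ (S.erase a).powersetCard i, ∏ r ∈ U, r < ∏ r ∈ T, r) :
    (derivative (cyclotomic (∏ p ∈ S, p) ℝ)).roots.card = 2 * S.card - 1 ∧
    ((derivative (cyclotomic (∏ p ∈ S, p) ℝ)).roots.filter
      (fun x => -1 < x ∧ x < 0)).card = S.card ∧
    ((derivative (cyclotomic (∏ p ∈ S, p) ℝ)).roots.filter
      (fun x => 0 < x ∧ x < 1)).card = S.card - 1 := by
  have hne : S.Nonempty := ⟨a, ha⟩
  have hn := graded_neg S hS hG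
  have hp := graded_pos S hS a ha hG'
  obtain ⟨l1, l2⟩ := Pool.Agent.CycCrit.main_lower S hS hne
  obtain ⟨hlt, h0⟩ := Pool.Agent.CycCrit.der_zero_prod S (fun p hp => (hS p hp).1) hne
  have h1 : derivative (cyclotomic (∏ p ∈ S, p) ℝ) ≠ 0 := by
    intro h; rw [h] at h0; simp at h0
  rw [Multiset.countP_eq_card_filter] at hn hp
  have h5 : (derivative (cyclotomic (∏ p ∈ S, p) ℝ)).roots.card =
      ((derivative (cyclotomic (∏ p ∈ S, p) ℝ)).roots.filter (· < 0)).card +
      ((derivative (cyclotomic (∏ p ∈ S, p) ℝ)).roots.filter (0 < ·)).card := by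
    conv_lhs => rw [← Multiset.filter_add_not (· < 0)
      (derivative (cyclotomic (∏ p ∈ S, p) ℝ)).roots, Multiset.card_add]
    congr 2
    refine Multiset.filter_congr fun x hx => ?_
    constructor
    · intro h
      rcases lt_or_eq_of_le (not_lt.1 h) with h | h
      · exact h
      · exfalso
        rw [← h] at hx
        exact h0 ((mem_roots h1).1 hx)
    · intro h; exact not_lt.2 h.le
  have h6 : ((derivative (cyclotomic (∏ p ∈ S, p) ℝ)).roots.filter
      (fun x => -1 < x ∧ x < 0)).card ≤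
      ((derivative (cyclotomic (∏ p ∈ S, p) ℝ)).roots.filter (· < 0)).card :=
    Multiset.card_le_card (Multiset.monotone_filter_right _ fun x hx => hx.2)
  have h7 : ((derivative (cyclotomic (∏ p ∈ S, p) ℝ)).roots.filter
      (fun x => 0 < x ∧ x < 1)).card ≤
      ((derivative (cyclotomic (∏ p ∈ S, p) ℝ)).roots.filter (0 < ·)).card :=
    Multiset.card_le_card (Multiset.monotone_filter_right _ fun x hx => hx.1)
  have hc := hne.card_pos
  refine ⟨?_, ?_, ?_⟩ <;> omega

end Pool.Agent.CYD
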