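import Pool.Agent.CycCrit.Lower

set_option autoImplicit false

namespace Pool.Agent.CycCrit

open Polynomial MeasureTheory Set

/-- If the number of zeros in the segment is at most the number forced by the vanishing moments,
then they are all simple. -/
theorem nodup_of_card_le {n m : ℕ} {s : ℝ} (hs : s = 1 ∨ s = -1) (hnz : NZ n s)
    (hP : derivative (cyclotomic n ℝ) ≠ 0) (hV : Van n s m)
    (hle : (Multiset.filter (fun a : ℝ => 0 < s * a ∧ s * a < 1)
      (derivative (cyclotomic n ℝ)).roots).card ≤ m) :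
    (Multiset.filter (fun a : ℝ => 0 < s * a ∧ s * a < 1)
      (derivative (cyclotomic n ℝ)).roots).Nodup := by
  classical
  set P := derivative (cyclotomic n ℝ) with hPdef
  set R := Multiset.filter (fun a : ℝ => 0 < s * a ∧ s * a < 1) P.roots with hRdef
  by_contra hnd
  rw [Multiset.nodup_iff_count_le_one] at hnd
  push Not at hnd
  obtain ⟨a0, ha0⟩ := hnd
  obtain ⟨R1, hR1⟩ := Multiset.le_iff_exists_add.1 (Multiset.le_count_iff_replicate_le.1
    (show 2 ≤ Multiset.count a0 R from ha0))
  have hcard : R.card = 2 + R1.card := by rw [hR1, Multiset.card_add, Multiset.card_replicate]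
  have hlt : R1.card < m := by omega
  have hRmem : ∀ a ∈ R, 0 < s * a ∧ s * a < 1 := fun a ha => (Multiset.mem_filter.mp ha).2
  have hR1mem : ∀ a ∈ R1, 0 < s * a ∧ s * a < 1 := fun a ha => hRmem a (by
    rw [hR1]; exact Multiset.mem_add.2 (Or.inr ha))
  have ha0R : a0 ∈ R := Multiset.count_pos.1 (by omega)
  have hRle : R ≤ P.roots := Multiset.filter_le _ _
  obtain ⟨P2, hP2⟩ := (Multiset.prod_X_sub_C_dvd_iff_le_roots hP R).mpr hRle
  have hs0 : s ≠ 0 := by rcases hs with rfl | rfl <;> norm_num
  have hss : s * s = 1 := by rcases hs with rfl | rfl <;> norm_num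
  have hP2nz : ∀ x : ℝ, 0 < s * x → s * x < 1 → P2.eval x ≠ 0 := by
    intro x hx0 hx1 hx
    have hP20 : P2 ≠ 0 := by
      rintro rfl
      rw [mul_zero] at hP2
      exact hP hP2
    have h1 : P.roots = R + P2.roots := by
      conv_lhs => rw [hP2]
      rw [roots_mul (by rw [← hP2]; exact hP), roots_multiset_prod_X_sub_C]
    have h2 : x ∈ P2.roots := (mem_roots hP20).mpr hx
    have h3 : Multiset.count x P.roots = Multiset.count x R + Multiset.count x P2.roots := by
      conv_lhs => rw [h1]
      rw [Multiset.count_add]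
    have h4 : Multiset.count x R = Multiset.count x P.roots := by
      rw [hRdef, Multiset.count_filter_of_pos ⟨hx0, hx1⟩]
    have h5 : 0 < Multiset.count x P2.roots := Multiset.count_pos.mpr h2
    omega
  -- the test polynomial
  set Q : ℝ[X] := (R1.map (fun a => X - C (Real.log (-Real.log (s * a))))).prod with hQ
  have hQdeg : Q.degree < m := by
    have h1 : Q = ((R1.map (fun a => Real.log (-Real.log (s * a)))).map
        (fun b => X - C b)).prod := by
      rw [hQ, Multiset.map_map]; rfl
    have h2 : Q.natDegree = R1.card := by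
      rw [h1, natDegree_multiset_prod_X_sub_C_eq_card, Multiset.card_map]
    have h3 : Q.Monic := by
      rw [h1]; exact monic_multisetProd_X_sub_C _
    rw [degree_eq_natDegree h3.ne_zero, h2]
    exact_mod_cast hlt
  have hzero := hV Q hQdeg
  -- the nonvanishing factor
  set G : ℝ → ℝ := fun t => s * Real.exp (-t) * P2.eval (s * Real.exp (-t)) /
    (cyclotomic n ℝ).eval (s * Real.exp (-t)) with hG
  have hGc : ContinuousOn G (Ioi 0) := by
    have h1 : Continuous (fun t : ℝ => s * Real.exp (-t)) :=
      continuous_const.mul (Real.continuous_exp.comp continuous_neg)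
    apply ContinuousOn.div
    · exact (h1.mul (P2.continuous.comp h1)).continuousOn
    · exact ((cyclotomic n ℝ).continuous.comp h1).continuousOn
    · intro t ht
      exact hnz _ (exp_neg_mem ht)
  have hG0 : ∀ t ∈ Ioi (0 : ℝ), G t ≠ 0 := by
    intro t ht
    have ht' : 0 < t := ht
    have h1 : s * (s * Real.exp (-t)) = Real.exp (-t) := by rw [← mul_assoc, hss, one_mul]
    have h2 : Real.exp (-t) < 1 := by rw [Real.exp_lt_one_iff]; linarith
    apply div_ne_zero
    · apply mul_ne_zero (mul_ne_zero hs0 (Real.exp_pos _).ne')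
      apply hP2nz
      · rw [h1]; exact Real.exp_pos _
      · rw [h1]; exact h2
    · exact hnz _ (exp_neg_mem ht')
  obtain ⟨e, he⟩ := const_sign hGc hG0
  set c : ℝ := (-s) ^ R1.card with hc
  have hF : ∀ t : ℝ, (c * e) * (LD n (s * Real.exp (-t)) * Q.eval (Real.log t)) =
      (e * G t) * (s * Real.exp (-t) - a0) ^ 2 *
      (R1.map (fun a => -s * ((s * Real.exp (-t) - a) *
      (Real.log t - Real.log (-Real.log (s * a)))))).prod := by
    intro t
    have h1 : (R1.map (fun a => -s * ((s * Real.exp (-t) - a) *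
      (Real.log t - Real.log (-Real.log (s * a)))))).prod =
      c * ((R1.map (fun a => s * Real.exp (-t) - a)).prod *
        (R1.map (fun a => Real.log t - Real.log (-Real.log (s * a)))).prod) := by
      rw [← Multiset.prod_map_mul, hc, ← Multiset.card_map (fun a => (s * Real.exp (-t) - a) *
        (Real.log t - Real.log (-Real.log (s * a)))) R1, ← Multiset.prod_replicate,
        ← Multiset.map_const', Multiset.map_map, ← Multiset.prod_map_mul]
      rfl
    have h2 : Q.eval (Real.log t) =
        (R1.map (fun a => Real.log t - Real.log (-Real.log (s * a)))).prod := by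
      rw [hQ, eval_multiset_prod, Multiset.map_map]
      simp
    have h3 : P.eval (s * Real.exp (-t)) =
        (R.map (fun a => s * Real.exp (-t) - a)).prod * P2.eval (s * Real.exp (-t)) := by
      conv_lhs => rw [hP2]
      rw [eval_mul, eval_multiset_prod, Multiset.map_map]
      simp
    have h4 : (R.map (fun a => s * Real.exp (-t) - a)).prod =
        (s * Real.exp (-t) - a0) ^ 2 * (R1.map (fun a => s * Real.exp (-t) - a)).prod := by
      rw [hR1, Multiset.map_add, Multiset.prod_add, Multiset.map_replicate,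
        Multiset.prod_replicate]
    rw [h1, h2, hG]
    unfold LD
    rw [← hPdef, h3, h4]
    ring
  have hnn : ∀ t ∈ Ioi (0 : ℝ), 0 ≤ (c * e) * (LD n (s * Real.exp (-t)) * Q.eval (Real.log t)) := by
    intro t ht
    rw [hF]
    exact mul_nonneg (mul_nonneg (he t ht).le (sq_nonneg _)) (prod_sign hs ht R1 hR1mem).1
  have hpos : ∀ t ∈ Ioi (0 : ℝ), t ∉ R.map (fun a => -Real.log (s * a)) →
      0 < (c * e) * (LD n (s * Real.exp (-t)) * Q.eval (Real.log t)) := by
    intro t ht h
    rw [hF]
    have h1 : t ∉ R1.map (fun a => -Real.log (s * a)) := by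
      intro h2
      apply h
      rw [hR1, Multiset.map_add]
      exact Multiset.mem_add.2 (Or.inr h2)
    have h2 : s * Real.exp (-t) - a0 ≠ 0 := by
      intro h3
      apply h
      refine Multiset.mem_map.2 ⟨a0, ha0R, ?_⟩
      have h4 : a0 = s * Real.exp (-t) := by linarith
      rw [h4, ← mul_assoc, hss, one_mul, Real.log_exp, neg_neg]
    exact mul_pos (mul_pos (he t ht) (by positivity)) ((prod_sign hs ht R1 hR1mem).2 h1)
  have hint : IntegrableOn (fun t => (c * e) * (LD n (s * Real.exp (-t)) *
      Q.eval (Real.log t))) (Ioi 0) := (integrable_LD hnz Q).const_mul _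
  have hI : ∫ t in Ioi (0 : ℝ), (c * e) * (LD n (s * Real.exp (-t)) * Q.eval (Real.log t)) = 0 := by
    rw [integral_const_mul]
    have : ∫ t in Ioi (0 : ℝ), LD n (s * Real.exp (-t)) * Q.eval (Real.log t) = 0 := hzero
    rw [this, mul_zero]
  have hae : 0 ≤ᵐ[volume.restrict (Ioi (0 : ℝ))] (fun t => (c * e) * (LD n (s * Real.exp (-t)) *
      Q.eval (Real.log t))) := by
    rw [Filter.EventuallyLE, ae_restrict_iff' measurableSet_Ioi]
    exact Filter.Eventually.of_forall hnn
  have hz := (integral_eq_zero_iff_of_nonneg_ae hae hint).mp hI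
  rw [Filter.EventuallyEq, ae_restrict_iff' measurableSet_Ioi, ae_iff] at hz
  have hsub : Ioi (0 : ℝ) \ ((R.map (fun a => -Real.log (s * a))).toFinset : Set ℝ) ⊆
      {a | ¬(a ∈ Ioi (0 : ℝ) → (c * e) * (LD n (s * Real.exp (-a)) * Q.eval (Real.log a)) =
        (0 : ℝ → ℝ) a)} := by
    intro t ht
    simp only [Set.mem_ofPred_eq, Pi.zero_apply]
    intro h
    have h1 := hpos t ht.1 (fun h2 => ht.2 (by
      rw [Finset.mem_coe, Multiset.mem_toFinset]; exact h2))
    exact h1.ne' (h ht.1)
  have h0 : volume (Ioi (0 : ℝ) \ ((R.map (fun a => -Real.log (s * a))).toFinset : Set ℝ)) = 0 :=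
    measure_mono_null hsub hz
  have h1 : volume (Ioi (0 : ℝ)) = 0 := by
    have h2 : volume (((R.map (fun a => -Real.log (s * a))).toFinset : Set ℝ)) = 0 :=
      (Finset.finite_toSet _).measure_zero _
    have h3 : Ioi (0 : ℝ) ⊆ (Ioi (0 : ℝ) \ ((R.map (fun a => -Real.log (s * a))).toFinset : Set ℝ))
        ∪ ((R.map (fun a => -Real.log (s * a))).toFinset : Set ℝ) := by
      intro x hx
      by_cases h : x ∈ ((R.map (fun a => -Real.log (s * a))).toFinset : Set ℝ)
      · exact Or.inr h
      · exact Or.inl ⟨hx, h⟩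
    exact measure_mono_null h3 (measure_union_null h0 h2)
  rw [Real.volume_Ioi] at h1
  exact ENNReal.top_ne_zero h1

/-- The critical points in `(-1,0)` are simple if there are at most `k` of them. -/
theorem neg_nodup (S : Finset ℕ) (hS : ∀ p ∈ S, p.Prime ∧ p ≠ 2) (hne : S.Nonempty)
    (h : ((derivative (cyclotomic (∏ p ∈ S, p) ℝ)).roots.filter
      (fun x => -1 < x ∧ x < 0)).card ≤ S.card) :
    ((derivative (cyclotomic (∏ p ∈ S, p) ℝ)).roots.filter
      (fun x => -1 < x ∧ x < 0)).Nodup := by
  have hP := derivative_cyclotomic_ne_zero (n := ∏ p ∈ S, p) (by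
    have := prod_gt_two hS hne; omega)
  have e : (derivative (cyclotomic (∏ p ∈ S, p) ℝ)).roots.filter
      (fun x => -1 < x ∧ x < 0) = (derivative (cyclotomic (∏ p ∈ S, p) ℝ)).roots.filter
      (fun x => 0 < -1 * x ∧ -1 * x < 1) := by
    apply Multiset.filter_congr
    intro x _
    constructor
    · rintro ⟨h1, h2⟩; constructor <;> linarith
    · rintro ⟨h1, h2⟩; constructor <;> linarith
  rw [e] at h ⊢
  exact nodup_of_card_le (Or.inr rfl) (NZ_prod_neg hS) hP (Van_neg hS) h

/-- The critical points in `(0,1)` are simple if there are at most `k - 1` of them. -/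
theorem pos_nodup (S : Finset ℕ) (hS : ∀ p ∈ S, p.Prime ∧ p ≠ 2) (hne : S.Nonempty)
    (h : ((derivative (cyclotomic (∏ p ∈ S, p) ℝ)).roots.filter
      (fun x => 0 < x ∧ x < 1)).card ≤ S.card - 1) :
    ((derivative (cyclotomic (∏ p ∈ S, p) ℝ)).roots.filter
      (fun x => 0 < x ∧ x < 1)).Nodup := by
  have hP := derivative_cyclotomic_ne_zero (n := ∏ p ∈ S, p) (by
    have := prod_gt_two hS hne; omega)
  have e : (derivative (cyclotomic (∏ p ∈ S, p) ℝ)).roots.filter
      (fun x => 0 < x ∧ x < 1) = (derivative (cyclotomic (∏ p ∈ S, p) ℝ)).roots.filter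
      (fun x => 0 < 1 * x ∧ 1 * x < 1) := by
    apply Multiset.filter_congr
    intro x _
    simp
  rw [e] at h ⊢
  exact nodup_of_card_le (Or.inl rfl) (NZ_of_two_lt (prod_gt_two hS hne) 1) hP
    (Van_pos hS hne) h

end Pool.Agent.CycCrit
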