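import Pool.Agent.CYD.Graded
import Pool.Agent.CYD.Simple

set_option autoImplicit false

namespace Pool.Agent.CYD

open Polynomial

/-- All critical points are simple in the graded case. -/
theorem graded_simple (S : Finset ℕ) (hS : ∀ p ∈ S, p.Prime ∧ p ≠ 2) (a : ℕ) (ha : a ∈ S)
    (hG : ∀ T ⊆ S, ∑ i ∈ Finset.range T.card, ∑ U ∈ S.powersetCard i, ∏ r ∈ U, r <
      ∏ r ∈ T, r)
    (hG' : ∀ T ⊆ S.erase a, (a - 1) * ∑ i ∈ Finset.range T.card,
      ∑ U ∈ (S.erase a).powersetCard i, ∏ r ∈ U, r < ∏ r ∈ T, r) :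
    (derivative (cyclotomic (∏ p ∈ S, p) ℝ)).roots.Nodup := by
  obtain ⟨h1, h2, h3⟩ := graded S hS a ha hG hG'
  have hne : S.Nonempty := ⟨a, ha⟩
  have h4 := Pool.Agent.CycCrit.neg_nodup S hS hne h2.le
  have h5 := Pool.Agent.CycCrit.pos_nodup S hS hne h3.le
  have h6 : ((derivative (cyclotomic (∏ p ∈ S, p) ℝ)).roots.filter
      (fun x => -1 < x ∧ x < 0)) + ((derivative (cyclotomic (∏ p ∈ S, p) ℝ)).roots.filter
      (fun x => 0 < x ∧ x < 1)) ≤ (derivative (cyclotomic (∏ p ∈ S, p) ℝ)).roots := by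
    rw [Multiset.filter_add_filter]
    have h6 : Multiset.filter (fun a : ℝ => (-1 < a ∧ a < 0) ∧ 0 < a ∧ a < 1)
        (derivative (cyclotomic (∏ p ∈ S, p) ℝ)).roots = 0 := by
      rw [Multiset.filter_eq_nil]
      rintro a _ ⟨⟨_, h5⟩, h6, _⟩
      exact absurd h5 (not_lt.mpr h6.le)
    rw [h6, add_zero]
    exact Multiset.filter_le _ _
  have hc := hne.card_pos
  have h7 := Multiset.eq_of_le_of_card_le h6 (by rw [Multiset.card_add]; omega)
  rw [← h7, Multiset.nodup_add]
  refine ⟨h4, h5, ?_⟩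
  rw [Multiset.disjoint_left]
  intro x hx hx'
  have h8 := (Multiset.mem_filter.1 hx).2.2
  have h9 := (Multiset.mem_filter.1 hx').2.1
  exact absurd h8 (not_lt.2 h9.le)

theorem count_le (S : Finset ℕ) (Y : ℕ) (hY : 1 ≤ Y) (hS : ∀ r ∈ S, r ≤ Y) (t : ℕ)
    (ht : t < S.card + 1) :
    ∑ i ∈ Finset.range (t + 1), ∑ U ∈ S.powersetCard i, ∏ r ∈ U, r ≤ 2 ^ S.card * Y ^ t := by
  have h1 : ∀ i ∈ Finset.range (t + 1), ∑ U ∈ S.powersetCard i, ∏ r ∈ U, r ≤
      S.card.choose i * Y ^ t := by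
    intro i hi
    have hi' : i ≤ t := by have := Finset.mem_range.1 hi; omega
    calc ∑ U ∈ S.powersetCard i, ∏ r ∈ U, r ≤ ∑ U ∈ S.powersetCard i, Y ^ t := by
          refine Finset.sum_le_sum fun U hU => ?_
          obtain ⟨hU1, hU2⟩ := Finset.mem_powersetCard.1 hU
          calc ∏ r ∈ U, r ≤ Y ^ U.card := Finset.prod_le_pow_card _ _ _ fun r hr => hS r (hU1 hr)
            _ ≤ Y ^ t := Nat.pow_le_pow_right hY (by omega)
      _ = S.card.choose i * Y ^ t := by
          rw [Finset.sum_const, Finset.card_powersetCard, smul_eq_mul]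
  refine (Finset.sum_le_sum h1).trans ?_
  rw [← Finset.sum_mul]
  refine Nat.mul_le_mul_right _ ?_
  rw [← Nat.sum_range_choose]
  exact Finset.sum_le_sum_of_subset (Finset.range_mono (by omega))

theorem primes_block (X : ℕ) (hX : 2 < X) : ∀ m : ℕ, ∃ Q : Finset ℕ, Q.card = m ∧
    ∀ q ∈ Q, q.Prime ∧ X < q ∧ q ≤ 2 ^ m * X
  | 0 => ⟨∅, rfl, by simp⟩
  | (m + 1) => by
      obtain ⟨Q, hc, hQ⟩ := primes_block X hX m
      have hpos : 0 < 2 ^ m * X := by positivity
      obtain ⟨p, hp, h1, h2⟩ := Nat.exists_prime_lt_and_le_two_mul (2 ^ m * X) hpos.ne'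
      have hpQ : p ∉ Q := fun h => by have := (hQ p h).2.2; omega
      have h3 : X ≤ 2 ^ m * X := Nat.le_mul_of_pos_left _ (by positivity)
      refine ⟨insert p Q, by rw [Finset.card_insert_of_notMem hpQ, hc], fun q hq => ?_⟩
      rw [pow_succ]
      rcases Finset.mem_insert.1 hq with rfl | hq
      · exact ⟨hp, by omega, by linarith⟩
      · obtain ⟨h4, h5, h6⟩ := hQ q hq
        exact ⟨h4, h5, by linarith⟩

/-- For every `k` there are graded sets of `k` large primes. -/
theorem graded_exists (k N : ℕ) (hk : 1 ≤ k) : ∃ S : Finset ℕ, S.card = k ∧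
    (∀ p ∈ S, p.Prime ∧ N < p ∧ p ≠ 2) ∧ ∃ a ∈ S,
    (∀ T ⊆ S, ∑ i ∈ Finset.range T.card, ∑ U ∈ S.powersetCard i, ∏ r ∈ U, r <
      ∏ r ∈ T, r) ∧
    (∀ T ⊆ S.erase a, (a - 1) * ∑ i ∈ Finset.range T.card,
      ∑ U ∈ (S.erase a).powersetCard i, ∏ r ∈ U, r < ∏ r ∈ T, r) := by
  obtain ⟨M, hM⟩ : ∃ M, M = 2 ^ k * (2 ^ k) ^ k := ⟨_, rfl⟩
  obtain ⟨a, ha1, ha2⟩ := Nat.exists_infinite_primes (N + M + 3)
  obtain ⟨X, hX⟩ : ∃ X, X = a * M := ⟨_, rfl⟩
  have hM1 : 1 ≤ M := by rw [hM]; exact Nat.mul_pos (by positivity) (by positivity)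
  have haX : a ≤ X := by rw [hX]; exact Nat.le_mul_of_pos_right _ hM1
  obtain ⟨Q, hc, hQ⟩ := primes_block X (by omega) (k - 1)
  have hX0 : 1 ≤ X := by omega
  have haQ : a ∉ Q := fun h => by have := (hQ a h).2.1; omega
  have hY : ∀ q ∈ Q, q ≤ 2 ^ k * X := fun q hq => (hQ q hq).2.2.trans
    (Nat.mul_le_mul_right _ (Nat.pow_le_pow_right (by norm_num) (by omega)))
  have hXY : X ≤ 2 ^ k * X := Nat.le_mul_of_pos_left _ (by positivity)
  have hcard : (insert a Q).card = k := by
    rw [Finset.card_insert_of_notMem haQ, hc]; omega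
  have hY1 : 1 ≤ 2 ^ k * X := by omega
  have hpow : ∀ t ≤ k, 2 ^ k * (2 ^ k * X) ^ t ≤ M * X ^ t := by
    intro t ht
    rw [hM, mul_pow, ← mul_assoc]
    exact Nat.mul_le_mul_right _ (Nat.mul_le_mul_left _
      (Nat.pow_le_pow_right (by positivity) ht))
  refine ⟨insert a Q, hcard, ?_, a, Finset.mem_insert_self a Q, ?_, ?_⟩
  · intro p hp
    rcases Finset.mem_insert.1 hp with rfl | hp
    · exact ⟨ha2, by omega, by omega⟩
    · obtain ⟨h1, h2, h3⟩ := hQ p hp
      exact ⟨h1, by omega, by omega⟩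
  · intro T hT
    rcases Nat.eq_zero_or_pos T.card with h0 | h0
    · rw [Finset.card_eq_zero] at h0
      subst h0; simp
    · obtain ⟨t, ht⟩ : ∃ t, T.card = t + 1 := ⟨T.card - 1, by omega⟩
      have hTk := Finset.card_le_card hT
      rw [hcard] at hTk
      have h1 := count_le (insert a Q) (2 ^ k * X) hY1 (fun r hr => by
        rcases Finset.mem_insert.1 hr with rfl | hr
        · omega
        · exact hY r hr) t (by omega)
      rw [hcard] at h1
      rw [ht]
      refine lt_of_le_of_lt (h1.trans (hpow t (by omega))) ?_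
      have h2 : a * X ^ t ≤ ∏ r ∈ T, r := by
        by_cases haT : a ∈ T
        · rw [← Finset.mul_prod_erase T (fun r => r) haT]
          refine Nat.mul_le_mul_left _ ?_
          have h3 : (T.erase a).card = t := by rw [Finset.card_erase_of_mem haT]; omega
          rw [← h3]
          refine Finset.pow_card_le_prod _ _ _ fun r hr => ?_
          have hrS := hT (Finset.mem_of_mem_erase hr)
          rcases Finset.mem_insert.1 hrS with h4 | h4
          · exact absurd h4 (Finset.ne_of_mem_erase hr)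
          · exact (hQ r h4).2.1.le
        · have h3 : X ^ T.card ≤ ∏ r ∈ T, r := by
            refine Finset.pow_card_le_prod _ _ _ fun r hr => ?_
            rcases Finset.mem_insert.1 (hT hr) with h4 | h4
            · exact absurd (h4 ▸ hr) haT
            · exact (hQ r h4).2.1.le
          refine le_trans ?_ h3
          rw [ht, pow_succ, mul_comm]
          exact Nat.mul_le_mul_left _ haX
      refine lt_of_lt_of_le ?_ h2
      exact Nat.mul_lt_mul_of_pos_right (by omega) (by positivity)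
  · intro T hT
    rw [Finset.erase_insert haQ] at hT ⊢
    rcases Nat.eq_zero_or_pos T.card with h0 | h0
    · rw [Finset.card_eq_zero] at h0
      subst h0; simp
    · obtain ⟨t, ht⟩ : ∃ t, T.card = t + 1 := ⟨T.card - 1, by omega⟩
      have hTk := Finset.card_le_card hT
      rw [hc] at hTk
      have h1 := count_le Q (2 ^ k * X) hY1 hY t (by omega)
      rw [hc] at h1
      rw [ht]
      have h2 : X ^ (t + 1) < ∏ r ∈ T, r := by
        rw [← ht, ← Finset.prod_const]
        refine Finset.prod_lt_prod_of_nonempty (fun r _ => by omega) (fun r hr => (hQ r (hT hr)).2.1)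
          (Finset.card_pos.1 h0)
      refine lt_of_le_of_lt ?_ h2
      have h3 : 2 ^ (k - 1) * (2 ^ k * X) ^ t ≤ M * X ^ t := le_trans
        (Nat.mul_le_mul_right _ (Nat.pow_le_pow_right (by norm_num) (by omega))) (hpow t (by omega))
      calc (a - 1) * _ ≤ a * (M * X ^ t) := Nat.mul_le_mul (by omega) (h1.trans h3)
        _ = X ^ (t + 1) := by rw [pow_succ, hX]; ring

end Pool.Agent.CYD
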