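import Pool.Agent.CYD.Base

/-!
CYD (MP_1d6ef7_nt): sign changes of the Thue-Morse lists.
-/

set_option autoImplicit false

namespace Pool.Agent.CYD

/-- The signs of the divisors in binary order. -/
def TM : ℕ → List Bool
  | 0 => [true]
  | k + 1 => TM k ++ (TM k).map (fun b => !b)

namespace TM_

lemma ch_not (l : List Bool) : chB (l.map (fun b => !b)) = chB l := by
  induction l with
  | nil => rfl
  | cons a l ih =>
    cases l with
    | nil => rfl
    | cons b l =>
      simp only [List.map_cons, chB] at ih ⊢
      rw [ih]
      cases a <;> cases b <;> rfl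

lemma ch_append (l l' : List Bool) (a b : Bool) :
    chB (l ++ [a] ++ b :: l') = chB (l ++ [a]) + (if a = b then 0 else 1) + chB (b :: l') := by
  induction l with
  | nil =>
    simp only [List.nil_append, List.cons_append, chB]
    omega
  | cons c l ih =>
    cases l with
    | nil =>
      simp only [List.cons_append, List.nil_append, chB]
      omega
    | cons d l =>
      simp only [List.cons_append, chB] at ih ⊢
      rw [ih]
      omega

lemma head (k : ℕ) : ∃ l, TM k = true :: l := by
  induction k with
  | zero => exact ⟨[], rfl⟩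
  | succ k ih =>
    obtain ⟨l, hl⟩ := ih
    exact ⟨l ++ (TM k).map (fun b => !b), by rw [TM]; nth_rewrite 1 [hl]; simp⟩

lemma last (k : ℕ) : ∃ l, TM k = l ++ [decide (k % 2 = 0)] := by
  induction k with
  | zero => exact ⟨[], rfl⟩
  | succ k ih =>
    obtain ⟨l, hl⟩ := ih
    refine ⟨TM k ++ l.map (fun b => !b), ?_⟩
    rw [TM]
    nth_rewrite 2 [hl]
    rw [List.map_append, ← List.append_assoc]
    congr 1
    rcases Nat.mod_two_eq_zero_or_one k with h | h
    · have : (k + 1) % 2 ≠ 0 := by omega
      simp [h, this]
    · have : (k + 1) % 2 = 0 := by omega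
      simp [h, this]

lemma succ (k : ℕ) : chB (TM (k + 1)) = 2 * chB (TM k) + (if k % 2 = 0 then 1 else 0) := by
  obtain ⟨l, hl⟩ := last k
  obtain ⟨l', hl'⟩ := head k
  have h1 : TM (k + 1) =
      l ++ [decide (k % 2 = 0)] ++ false :: l'.map (fun b => !b) := by
    rw [TM]
    nth_rewrite 1 [hl]
    rw [hl']
    simp
  have h2 : chB (false :: l'.map (fun b => !b)) = chB (TM k) := by
    rw [← ch_not (TM k), hl']
    simp
  rw [h1, ch_append, h2, ← hl]
  by_cases h : k % 2 = 0
  · simp [h]
    omega
  · simp [h]
    omega

end TM_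

/-- The two sides together. -/
theorem chB_TM (k : ℕ) : chB (TM (k + 1)) + chB (TM k) = 2 ^ (k + 1) - 1 := by
  have key : chB (TM (k + 1)) + chB (TM k) + 1 = 2 ^ (k + 1) := by
    induction k with
    | zero => decide
    | succ k ih =>
      rw [TM_.succ (k + 1), TM_.succ k]
      rw [TM_.succ k] at ih
      rw [pow_succ]
      rcases Nat.mod_two_eq_zero_or_one k with h | h
      · have h' : (k + 1) % 2 ≠ 0 := by omega
        simp only [h, h', if_true, if_false] at ih ⊢
        omega
      · have h' : (k + 1) % 2 = 0 := by omega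
        have h'' : k % 2 ≠ 0 := by omega
        simp only [h', h'', if_true, if_false] at ih ⊢
        omega
  omega

end Pool.Agent.CYD
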