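import Pool.Agent.CYD.Base
import Pool.Agent.CYD.TM

set_option autoImplicit false

namespace Pool.Agent.CYD

open Polynomial

/-- The factors with sign `true`. -/
noncomputable def A (q : ℕ) : List (ℕ × Bool) → ℝ[X]
  | [] => 1
  | (a :: l) => if a.2 then G q a.1 * A q l else A q l

/-- The factors with sign `false`. -/
noncomputable def B (q : ℕ) : List (ℕ × Bool) → ℝ[X]
  | [] => 1
  | (a :: l) => if a.2 then B q l else G q a.1 * B q l

theorem F_eq (q : ℕ) : ∀ l : List (ℕ × Bool), F q l = A q l * B q l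
  | [] => by simp [F, A, B]
  | ((d, b) :: l) => by
      rw [F, F_eq q l, A, B]
      cases b
      · simp only [Bool.false_eq_true, if_false]; ring
      · simp only [if_true]; ring

theorem W_eq (q : ℕ) : ∀ l : List (ℕ × Bool),
    W q l = X * (derivative (A q l) * B q l - A q l * derivative (B q l))
  | [] => by simp [W, A, B]
  | ((d, b) :: l) => by
      rw [W, W_eq q l, F_eq, A, B]
      cases b
      · simp only [Bool.false_eq_true, if_false, sg, derivative_mul, map_neg, map_one]
        ring
      · simp only [if_true, sg, derivative_mul, map_one]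
        ring

def mulL (p : ℕ) (l : List (ℕ × Bool)) : List (ℕ × Bool) := l.map fun a => (p * a.1, a.2)

def flL (l : List (ℕ × Bool)) : List (ℕ × Bool) := l.map fun a => (a.1, !a.2)

theorem G_mul (q p d : ℕ) : G q (p * d) = expand ℝ p (G q d) := by
  rw [G, G, map_sum]
  refine Finset.sum_congr rfl fun j _ => ?_
  rw [map_pow, expand_X, ← pow_mul]
  congr 1
  ring

theorem A_append (q : ℕ) : ∀ l1 l2 : List (ℕ × Bool), A q (l1 ++ l2) = A q l1 * A q l2
  | [], l2 => by simp [A]
  | ((d, b) :: l), l2 => by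
      rw [List.cons_append, A, A, A_append q l l2]
      cases b
      · simp
      · simp [mul_assoc]

theorem B_append (q : ℕ) : ∀ l1 l2 : List (ℕ × Bool), B q (l1 ++ l2) = B q l1 * B q l2
  | [], l2 => by simp [B]
  | ((d, b) :: l), l2 => by
      rw [List.cons_append, B, B, B_append q l l2]
      cases b
      · simp [mul_assoc]
      · simp

theorem A_mulL (q p : ℕ) : ∀ l : List (ℕ × Bool), A q (mulL p l) = expand ℝ p (A q l)
  | [] => by simp [A, mulL]
  | ((d, b) :: l) => by
      have := A_mulL q p l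
      rw [mulL] at this
      rw [mulL, List.map_cons, A, A, this]
      cases b
      · simp
      · simp [G_mul]

theorem B_mulL (q p : ℕ) : ∀ l : List (ℕ × Bool), B q (mulL p l) = expand ℝ p (B q l)
  | [] => by simp [B, mulL]
  | ((d, b) :: l) => by
      have := B_mulL q p l
      rw [mulL] at this
      rw [mulL, List.map_cons, B, B, this]
      cases b
      · simp [G_mul]
      · simp

theorem A_flL (q : ℕ) : ∀ l : List (ℕ × Bool), A q (flL l) = B q l
  | [] => by simp [A, B, flL]
  | ((d, b) :: l) => by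
      have := A_flL q l
      rw [flL] at this
      rw [flL, List.map_cons, A, B, this]
      cases b <;> simp

theorem B_flL (q : ℕ) : ∀ l : List (ℕ × Bool), B q (flL l) = A q l
  | [] => by simp [A, B, flL]
  | ((d, b) :: l) => by
      have := B_flL q l
      rw [flL] at this
      rw [flL, List.map_cons, A, B, this]
      cases b <;> simp

theorem Sm_append : ∀ l1 l2 : List (ℕ × Bool), Sm (l1 ++ l2) = Sm l1 + Sm l2
  | [], l2 => by simp [Sm]
  | (a :: l), l2 => by
      rw [List.cons_append, Sm, Sm, Sm_append l l2]; ring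

theorem Sm_mulL (p : ℕ) : ∀ l : List (ℕ × Bool), Sm (mulL p l) = p * Sm l
  | [] => by simp [Sm, mulL]
  | (a :: l) => by
      have := Sm_mulL p l
      rw [mulL] at this
      rw [mulL, List.map_cons, Sm, Sm, this]; ring

theorem Sm_flL : ∀ l : List (ℕ × Bool), Sm (flL l) = Sm l
  | [] => by simp [Sm, flL]
  | (a :: l) => by
      have := Sm_flL l
      rw [flL] at this
      rw [flL, List.map_cons, Sm, Sm, this]

theorem Gd_flL {q : ℕ} : ∀ l : List (ℕ × Bool), Gd q l → Gd q (flL l)
  | [], _ => by simp [Gd, flL]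
  | (a :: l), h => by
      have h1 := Sm_flL l
      have h2 := Gd_flL l h.2
      rw [flL] at h1 h2
      rw [flL, List.map_cons]
      exact ⟨by rw [h1]; exact h.1, h2⟩

theorem Gd_next {q p : ℕ} {l2 : List (ℕ × Bool)} (h2 : Gd q l2) (hp : (q - 1) * Sm l2 < p) :
    ∀ l : List (ℕ × Bool), Gd q l → Gd q (mulL p l ++ l2)
  | [], _ => by simpa [mulL] using h2
  | (a :: l), h => by
      have h1 := Gd_next h2 hp l h.2
      have h3 := Sm_mulL p l
      rw [mulL] at h1 h3
      rw [mulL, List.map_cons, List.cons_append]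
      refine ⟨?_, h1⟩
      rw [Sm_append, h3]
      have h4 : (q - 1) * Sm l + 1 ≤ a.1 := h.1
      calc (q - 1) * (p * Sm l + Sm l2) = p * ((q - 1) * Sm l) + (q - 1) * Sm l2 := by ring
        _ < p * ((q - 1) * Sm l) + p := by omega
        _ = p * ((q - 1) * Sm l + 1) := by ring
        _ ≤ p * a.1 := Nat.mul_le_mul_left p h4

theorem main' {q : ℕ} (hq : 2 ≤ q) (l : List (ℕ × Bool)) (h : Gd q l) :
    signVariations (W q l) ≤ chB (l.map Prod.snd) := by
  cases l with
  | nil => simp [W]
  | cons a l => exact (main hq l a h).1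

theorem W_coeff_one {q : ℕ} (hq : 2 ≤ q) (b : Bool) : ∀ l : List (ℕ × Bool),
    Gd q (l ++ [(1, b)]) → (W q (l ++ [(1, b)])).coeff 1 ≠ 0
  | [], h => by
      rw [List.nil_append, coeff_W_cons, Finset.sum_eq_single 1]
      · rcases sg_cases b with h | h <;> rw [h] <;> simp [W, F]
      · intro j _ hj
        rcases Nat.eq_zero_or_pos j with hj0 | hj0
        · subst hj0; simp [W]
        · rw [if_neg]; omega
      · intro h5
        exact absurd (Finset.mem_range.2 (by omega)) h5
  | ((d, c) :: l), h => by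
      rw [List.cons_append] at h ⊢
      rw [W_low hq h 1 ?_]
      · exact W_coeff_one hq b l h.2
      · have h1 := h.1
        rw [Sm_append] at h1
        simp only [Sm] at h1
        have h2 : 1 * 1 ≤ (q - 1) * (Sm l + (1 + 0)) := Nat.mul_le_mul (by omega) (by omega)
        omega

theorem build {q : ℕ} (f : ℕ → ℝ[X])
    (hf : ∃ ε : ℝ, ε ≠ 0 ∧ f 1 = C ε * G q 1) (n0 : ℕ)
    (hstep : ∀ n p : ℕ, p.Prime → p ≠ 2 → ¬ p ∣ n0 * n → f (n * p) * f n = expand ℝ p (f n))
    (S : Finset ℕ) : (∀ p ∈ S, p.Prime ∧ p ≠ 2 ∧ ¬ p ∣ n0) →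
    (∀ p ∈ S, (q - 1) * ∏ r ∈ S.filter (· < p), (r + 1) < p) →
    ∃ (l : List (ℕ × Bool)) (b : Bool), Gd q (l ++ [(1, b)]) ∧
      Sm (l ++ [(1, b)]) = ∏ p ∈ S, (p + 1) ∧
      (l ++ [(1, b)]).map Prod.snd = TM S.card ∧
      ∃ ε : ℝ, ε ≠ 0 ∧ f (∏ p ∈ S, p) * B q (l ++ [(1, b)]) = C ε * A q (l ++ [(1, b)]) := by
  induction S using Finset.induction_on_max with
  | empty =>
    intro _ _
    obtain ⟨ε, h1, h2⟩ := hf
    refine ⟨[], true, ⟨by simp [Sm], trivial⟩, by simp [Sm], by simp [TM], ε, h1, ?_⟩
    simp [A, B, h2]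
  | insert a s hmax ih =>
    intro hS hsep
    have ha : a ∉ s := fun h => lt_irrefl a (hmax a h)
    have hfil : (insert a s).filter (· < a) = s := by
      ext x
      simp only [Finset.mem_filter, Finset.mem_insert]
      constructor
      · rintro ⟨h | h, h'⟩
        · omega
        · exact h
      · intro h; exact ⟨Or.inr h, hmax x h⟩
    have hfil' : ∀ p ∈ s, (insert a s).filter (· < p) = s.filter (· < p) := by
      intro p hp
      ext x
      simp only [Finset.mem_filter, Finset.mem_insert]
      have := hmax p hp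
      constructor
      · rintro ⟨h | h, h'⟩
        · omega
        · exact ⟨h, h'⟩
      · rintro ⟨h, h'⟩; exact ⟨Or.inr h, h'⟩
    obtain ⟨l, b, hG, hSm, hTM, ε, hε, hrel⟩ := ih
      (fun p hp => hS p (Finset.mem_insert_of_mem hp))
      (fun p hp => by
        have := hsep p (Finset.mem_insert_of_mem hp)
        rwa [hfil' p hp] at this)
    have hsa := hsep a (Finset.mem_insert_self a s)
    rw [hfil, ← hSm] at hsa
    set L := l ++ [(1, b)] with hL
    have hflL : flL L = flL l ++ [(1, !b)] := by simp [hL, flL]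
    have hnew : mulL a L ++ flL l ++ [(1, !b)] = mulL a L ++ flL L := by
      rw [hflL, List.append_assoc]
    obtain ⟨hap, ha2, han⟩ := hS a (Finset.mem_insert_self a s)
    refine ⟨mulL a L ++ flL l, !b, ?_, ?_, ?_, 1, one_ne_zero, ?_⟩
    · rw [hnew]
      exact Gd_next (Gd_flL L hG) (by rw [Sm_flL]; exact hsa) L hG
    · rw [hnew, Sm_append, Sm_mulL, Sm_flL, hSm, Finset.prod_insert ha]; ring
    · rw [hnew, List.map_append, Finset.card_insert_of_notMem ha, TM, ← hTM]
      simp [mulL, flL, Function.comp_def]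
    · rw [hnew, A_append, B_append, A_mulL, B_mulL, A_flL, B_flL, Finset.prod_insert ha,
        mul_comm a]
      have hnd : ¬ a ∣ n0 * ∏ p ∈ s, p := by
        intro h
        rcases (Nat.Prime.dvd_mul hap).1 h with h | h
        · exact han h
        · obtain ⟨p, hp, hd⟩ := (Prime.dvd_finsetProd_iff hap.prime _).1 h
          have := (Nat.prime_dvd_prime_iff_eq hap (hS p (Finset.mem_insert_of_mem hp)).1).1 hd
          have h2 := hmax p hp
          omega
      have hs := hstep (∏ p ∈ s, p) a hap ha2 hnd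
      have hCε : (C ε : ℝ[X]) ≠ 0 := by simpa using hε
      apply mul_left_cancel₀ hCε
      calc C ε * (f ((∏ p ∈ s, p) * a) * (expand ℝ a (B q L) * A q L))
          = f ((∏ p ∈ s, p) * a) * expand ℝ a (B q L) * (C ε * A q L) := by ring
        _ = (f ((∏ p ∈ s, p) * a) * f (∏ p ∈ s, p)) * expand ℝ a (B q L) * B q L := by
            rw [← hrel]; ring
        _ = expand ℝ a (f (∏ p ∈ s, p) * B q L) * B q L := by rw [hs, map_mul]
        _ = C ε * (C 1 * (expand ℝ a (A q L) * B q L)) := by
            rw [hrel, map_mul, expand_C, C_1, one_mul]; ring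

theorem roots_bound {q : ℕ} (hq : 2 ≤ q) (P : ℝ[X]) (l : List (ℕ × Bool)) (b : Bool)
    (hG : Gd q (l ++ [(1, b)])) (ε : ℝ) (hε : ε ≠ 0)
    (h : P * B q (l ++ [(1, b)]) = C ε * A q (l ++ [(1, b)])) :
    derivative P ≠ 0 ∧ (derivative P).eval 0 ≠ 0 ∧
    (derivative P).roots.countP (0 < ·) ≤ chB ((l ++ [(1, b)]).map Prod.snd) := by
  set L := l ++ [(1, b)] with hL
  have key : derivative P * (X * (B q L) ^ 2) = C ε * W q L := by
    have h1 : derivative P * B q L + P * derivative (B q L) = C ε * derivative (A q L) := by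
      have := congrArg derivative h
      rwa [derivative_mul, derivative_C_mul] at this
    rw [W_eq]
    calc derivative P * (X * (B q L) ^ 2)
        = X * ((derivative P * B q L + P * derivative (B q L)) * B q L -
            (P * B q L) * derivative (B q L)) := by ring
      _ = C ε * (X * (derivative (A q L) * B q L - A q L * derivative (B q L))) := by
          rw [h1, h]; ring
  have hW1 : (W q L).coeff 1 ≠ 0 := W_coeff_one hq b l hG
  have hW : W q L ≠ 0 := by
    intro h0; rw [h0] at hW1; simp at hW1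
  have hCε : (C ε : ℝ[X]) ≠ 0 := by simpa using hε
  have hne : C ε * W q L ≠ 0 := mul_ne_zero hCε hW
  refine ⟨?_, ?_, ?_⟩
  · intro h0
    rw [h0, zero_mul] at key
    exact hne key.symm
  · intro h0
    have h1 : (derivative P * (X * (B q L) ^ 2)).coeff 1 = 0 := by
      have : derivative P * (X * (B q L) ^ 2) = X * (derivative P * (B q L) ^ 2) := by ring
      rw [this, show (1 : ℕ) = 0 + 1 from rfl, coeff_X_mul, mul_coeff_zero,
        coeff_zero_eq_eval_zero, h0, zero_mul]
    rw [key, coeff_C_mul] at h1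
    rcases mul_eq_zero.1 h1 with h2 | h2
    · exact hε h2
    · exact hW1 h2
  · have h1 : (derivative P).roots ≤ (C ε * W q L).roots :=
      roots.le_of_dvd hne ⟨_, key.symm⟩
    rw [roots_C_mul _ hε] at h1
    exact (Multiset.countP_le_of_le _ h1).trans
      ((roots_countP_pos_le_signVariations _).trans (main' hq L hG))

end Pool.Agent.CYD
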