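import Pool.Agent.CYD.Graded

set_option autoImplicit false

namespace Pool.Agent.CYD

open Polynomial

theorem sv_support : ∀ (m : ℕ) (P : ℝ[X]), P.support.card = m → signVariations P ≤ m - 1
  | 0, P, h => by
      have h1 : P = 0 := by simpa using h
      subst h1; simp
  | (m + 1), P, h => by
      have h1 : P.eraseLead.support.card = m := by rw [card_support_eraseLead, h]; rfl
      have ih := sv_support m P.eraseLead h1
      rcases Nat.eq_zero_or_pos m with h0 | h0
      · subst h0
        have h2 : P.eraseLead = 0 := card_support_eq_zero.1 h1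
        have h3 := eraseLead_add_monomial_natDegree_leadingCoeff P
        rw [h2, zero_add] at h3
        rw [← h3, signVariations_monomial]
      · have h4 : signVariations P ≤ signVariations P.eraseLead + 1 :=
          signVariations_le_eraseLead_succ P
        omega

/-- The factor `X ^ d - 1`. -/
noncomputable def H (d : ℕ) : ℝ[X] := X ^ d - 1

/-- The product of the factors. -/
noncomputable def F1 : List (ℕ × Bool) → ℝ[X]
  | [] => 1
  | (a :: l) => H a.1 * F1 l

/-- The numerator. -/
noncomputable def W1 : List (ℕ × Bool) → ℝ[X]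
  | [] => 0
  | (a :: l) => H a.1 * W1 l + C (sg a.2 * a.1) * (X ^ a.1 * F1 l)

/-- The factors with sign `true`. -/
noncomputable def A1 : List (ℕ × Bool) → ℝ[X]
  | [] => 1
  | (a :: l) => if a.2 then H a.1 * A1 l else A1 l

/-- The factors with sign `false`. -/
noncomputable def B1 : List (ℕ × Bool) → ℝ[X]
  | [] => 1
  | (a :: l) => if a.2 then B1 l else H a.1 * B1 l

theorem F1_eq : ∀ l : List (ℕ × Bool), F1 l = A1 l * B1 l
  | [] => by simp [F1, A1, B1]
  | ((d, b) :: l) => by
      rw [F1, F1_eq l, A1, B1]
      cases b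
      · simp only [Bool.false_eq_true, if_false]; ring
      · simp only [if_true]; ring

theorem XdH (d : ℕ) : X * derivative (H d) = C (d : ℝ) * X ^ d := by
  rcases Nat.eq_zero_or_pos d with h | h
  · subst h; simp [H]
  · obtain ⟨e, rfl⟩ : ∃ e, d = e + 1 := ⟨d - 1, by omega⟩
    rw [H, derivative_sub, derivative_one, sub_zero, derivative_X_pow, Nat.add_sub_cancel, pow_succ]
    ring

theorem W1_eq : ∀ l : List (ℕ × Bool),
    W1 l = X * (derivative (A1 l) * B1 l - A1 l * derivative (B1 l))
  | [] => by simp [W1, A1, B1]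
  | ((d, b) :: l) => by
      rw [W1, W1_eq l, F1_eq, A1, B1]
      have h := XdH d
      cases b
      · simp only [Bool.false_eq_true, if_false, sg, derivative_mul, map_mul, map_neg, map_one]
        have : X * (derivative (A1 l) * (H d * B1 l) -
            A1 l * (derivative (H d) * B1 l + H d * derivative (B1 l))) =
            H d * (X * (derivative (A1 l) * B1 l - A1 l * derivative (B1 l))) -
            (X * derivative (H d)) * (A1 l * B1 l) := by ring
        rw [this, h]; ring
      · simp only [if_true, sg, derivative_mul, map_mul, map_one]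
        have : X * ((derivative (H d) * A1 l + H d * derivative (A1 l)) * B1 l -
            H d * A1 l * derivative (B1 l)) =
            H d * (X * (derivative (A1 l) * B1 l - A1 l * derivative (B1 l))) +
            (X * derivative (H d)) * (A1 l * B1 l) := by ring
        rw [this, h]; ring

/-- The subset sums. -/
def Qs : List (ℕ × Bool) → Finset ℕ
  | [] => {0}
  | (a :: l) => Qs l ∪ (Qs l).image (fun x => a.1 + x)

theorem card_Qs : ∀ l : List (ℕ × Bool), (Qs l).card ≤ 2 ^ l.length
  | [] => by simp [Qs]
  | (a :: l) => by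
      have h1 := card_Qs l
      have h2 := Finset.card_union_le (Qs l) ((Qs l).image (fun x => a.1 + x))
      have h3 : ((Qs l).image (fun x => a.1 + x)).card ≤ (Qs l).card := Finset.card_image_le
      rw [Qs, List.length_cons, pow_succ]
      omega

theorem supp_H_mul {d : ℕ} {P : ℝ[X]} {Q : Finset ℕ} (h : P.support ⊆ Q) :
    (H d * P).support ⊆ Q ∪ Q.image (fun x => d + x) := by
  intro s hs
  rw [mem_support_iff, H, sub_mul, one_mul, coeff_sub, coeff_X_pow_mul'] at hs
  rw [Finset.mem_union, Finset.mem_image]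
  by_contra hcon
  push Not at hcon
  obtain ⟨h1, h2⟩ := hcon
  apply hs
  have h3 : P.coeff s = 0 := by
    by_contra h4; exact h1 (h (mem_support_iff.2 h4))
  rw [h3, sub_zero]
  split_ifs with h5
  · by_contra h4
    exact h2 (s - d) (h (mem_support_iff.2 h4)) (by omega)
  · rfl

theorem supp_X_mul {d : ℕ} {c : ℝ} {P : ℝ[X]} {Q : Finset ℕ} (h : P.support ⊆ Q) :
    (C c * (X ^ d * P)).support ⊆ Q ∪ Q.image (fun x => d + x) := by
  intro s hs
  rw [mem_support_iff, coeff_C_mul, coeff_X_pow_mul'] at hs
  rw [Finset.mem_union, Finset.mem_image]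
  by_contra hcon
  push Not at hcon
  obtain ⟨h1, h2⟩ := hcon
  apply hs
  split_ifs with h5
  · have : P.coeff (s - d) = 0 := by
      by_contra h4
      exact h2 (s - d) (h (mem_support_iff.2 h4)) (by omega)
    rw [this, mul_zero]
  · rw [mul_zero]

theorem supp_F1 : ∀ l : List (ℕ × Bool), (F1 l).support ⊆ Qs l
  | [] => by
      rw [F1, Qs]
      intro s hs
      rw [mem_support_iff, coeff_one] at hs
      rw [Finset.mem_singleton]
      by_contra h; exact hs (if_neg h)
  | (a :: l) => supp_H_mul (supp_F1 l)

theorem supp_W1 : ∀ l : List (ℕ × Bool), (W1 l).support ⊆ Qs l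
  | [] => by simp [W1]
  | (a :: l) => by
      rw [W1, Qs]
      exact support_add.trans (Finset.union_subset (supp_H_mul (supp_W1 l)) (supp_X_mul (supp_F1 l)))

theorem H_mul (p d : ℕ) : H (p * d) = expand ℝ p (H d) := by
  rw [H, H, map_sub, map_one, map_pow, expand_X, ← pow_mul]

theorem A1_append : ∀ l1 l2 : List (ℕ × Bool), A1 (l1 ++ l2) = A1 l1 * A1 l2
  | [], l2 => by simp [A1]
  | ((d, b) :: l1), l2 => by
      rw [List.cons_append, A1, A1_append l1 l2, A1]
      cases b
      · simp
      · simp [mul_assoc]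

theorem B1_append : ∀ l1 l2 : List (ℕ × Bool), B1 (l1 ++ l2) = B1 l1 * B1 l2
  | [], l2 => by simp [B1]
  | ((d, b) :: l1), l2 => by
      rw [List.cons_append, B1, B1_append l1 l2, B1]
      cases b
      · simp [mul_assoc]
      · simp

theorem A1_mulL (p : ℕ) : ∀ l : List (ℕ × Bool), A1 (mulL p l) = expand ℝ p (A1 l)
  | [] => by simp [A1, mulL]
  | ((d, b) :: l) => by
      have h : mulL p ((d, b) :: l) = (p * d, b) :: mulL p l := rfl
      rw [h, A1, A1_mulL p l, A1]
      cases b
      · simp
      · simp [H_mul]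

theorem B1_mulL (p : ℕ) : ∀ l : List (ℕ × Bool), B1 (mulL p l) = expand ℝ p (B1 l)
  | [] => by simp [B1, mulL]
  | ((d, b) :: l) => by
      have h : mulL p ((d, b) :: l) = (p * d, b) :: mulL p l := rfl
      rw [h, B1, B1_mulL p l, B1]
      cases b
      · simp [H_mul]
      · simp

theorem A1_flL : ∀ l : List (ℕ × Bool), A1 (flL l) = B1 l
  | [] => by simp [A1, B1, flL]
  | ((d, b) :: l) => by
      have h : flL ((d, b) :: l) = (d, !b) :: flL l := rfl
      rw [h, A1, A1_flL l, B1]
      cases b <;> simp

theorem B1_flL : ∀ l : List (ℕ × Bool), B1 (flL l) = A1 l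
  | [] => by simp [A1, B1, flL]
  | ((d, b) :: l) => by
      have h : flL ((d, b) :: l) = (d, !b) :: flL l := rfl
      rw [h, B1, B1_flL l, A1]
      cases b <;> simp

theorem rel1 (S : Finset ℕ) : (∀ p ∈ S, p.Prime) → ∃ L : List (ℕ × Bool),
    L.length = 2 ^ S.card ∧ (∀ a ∈ L, 0 < a.1) ∧ cyclotomic (∏ p ∈ S, p) ℝ * B1 L = A1 L := by
  induction S using Finset.induction_on with
  | empty =>
    intro _
    refine ⟨[(1, true)], by simp, by simp, ?_⟩
    simp [A1, B1, H]
  | insert a s ha ih =>
    intro hS
    obtain ⟨L, hL, hpos, hrel⟩ := ih fun p hp => hS p (Finset.mem_insert_of_mem hp)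
    have hap := hS a (Finset.mem_insert_self a s)
    refine ⟨mulL a L ++ flL L, ?_, ?_, ?_⟩
    · rw [List.length_append, mulL, flL, List.length_map, List.length_map, hL,
        Finset.card_insert_of_notMem ha, pow_succ]
      ring
    · intro x hx
      rcases List.mem_append.1 hx with hx | hx
      · obtain ⟨y, hy, rfl⟩ := List.mem_map.1 hx
        exact Nat.mul_pos hap.pos (hpos y hy)
      · obtain ⟨y, hy, rfl⟩ := List.mem_map.1 hx
        exact hpos y hy
    · have hnd : ¬ a ∣ ∏ p ∈ s, p := by
        intro h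
        obtain ⟨p, hp, hd⟩ := (Prime.dvd_finsetProd_iff hap.prime _).1 h
        have := (Nat.prime_dvd_prime_iff_eq hap (hS p (Finset.mem_insert_of_mem hp))).1 hd
        exact ha (this ▸ hp)
      have hs := cyclotomic_expand_eq_cyclotomic_mul hap hnd ℝ
      rw [B1_append, A1_append, B1_mulL, A1_mulL, B1_flL, A1_flL, Finset.prod_insert ha, mul_comm a]
      calc cyclotomic ((∏ p ∈ s, p) * a) ℝ * (expand ℝ a (B1 L) * A1 L)
          = (cyclotomic ((∏ p ∈ s, p) * a) ℝ * cyclotomic (∏ p ∈ s, p) ℝ) *
            expand ℝ a (B1 L) * B1 L := by rw [← hrel]; ring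
        _ = expand ℝ a (cyclotomic (∏ p ∈ s, p) ℝ * B1 L) * B1 L := by rw [← hs, map_mul]
        _ = expand ℝ a (A1 L) * B1 L := by rw [hrel]

theorem F1_ne : ∀ l : List (ℕ × Bool), (∀ a ∈ l, 0 < a.1) → F1 l ≠ 0
  | [], _ => one_ne_zero
  | (a :: l), h => by
      have h1 := h a (by simp)
      refine mul_ne_zero ?_ (F1_ne l fun b hb => h b (by simp [hb]))
      rw [H, ← C_1]
      exact X_pow_sub_C_ne_zero h1 1

theorem supp_comp (P : ℝ[X]) : (P.comp (-X)).support ⊆ P.support := by
  intro s hs
  rw [mem_support_iff] at hs ⊢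
  intro h
  apply hs
  have h1 : (-X : ℝ[X]) = C (-1) * X := by simp
  rw [h1, comp_C_mul_X_coeff, h, zero_mul]

theorem count_side (P N : ℝ[X]) (hN : N ≠ 0) (hd : P ∣ N) :
    P.roots.countP (0 < ·) ≤ N.support.card - 1 :=
  (Multiset.countP_le_of_le _ (roots.le_of_dvd hN hd)).trans
    ((roots_countP_pos_le_signVariations _).trans (sv_support _ _ rfl))

/-- A bound for the number of real critical points that depends only on the number of primes. -/
theorem uniform (S : Finset ℕ) (hS : ∀ p ∈ S, p.Prime) (hne : S.Nonempty) :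
    (derivative (cyclotomic (∏ p ∈ S, p) ℝ)).roots.card ≤ 2 * (2 ^ 2 ^ S.card - 1) := by
  obtain ⟨L, hL, hpos, hrel⟩ := rel1 S hS
  obtain ⟨hlt, h0⟩ := Pool.Agent.CycCrit.der_zero_prod S hS hne
  set P := cyclotomic (∏ p ∈ S, p) ℝ with hP
  have h1 : derivative P ≠ 0 := by
    intro h; rw [h] at h0; simp at h0
  have key : derivative P * (X * (B1 L) ^ 2) = W1 L := by
    have h2 : derivative P * B1 L + P * derivative (B1 L) = derivative (A1 L) := by
      have := congrArg derivative hrel
      rwa [derivative_mul] at this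
    rw [W1_eq]
    calc derivative P * (X * (B1 L) ^ 2)
        = X * ((derivative P * B1 L + P * derivative (B1 L)) * B1 L -
            (P * B1 L) * derivative (B1 L)) := by ring
      _ = X * (derivative (A1 L) * B1 L - A1 L * derivative (B1 L)) := by rw [h2, hrel]
  have hB : B1 L ≠ 0 := by
    have h2 := F1_ne L hpos
    rw [F1_eq] at h2
    exact right_ne_zero_of_mul h2
  have hW : W1 L ≠ 0 := by
    rw [← key]
    exact mul_ne_zero h1 (mul_ne_zero X_ne_zero (pow_ne_zero _ hB))
  have hc : (W1 L).support.card ≤ 2 ^ 2 ^ S.card := by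
    rw [← hL]
    exact (Finset.card_le_card (supp_W1 L)).trans (card_Qs L)
  have hp := count_side (derivative P) (W1 L) hW ⟨_, key.symm⟩
  have hn := count_side ((derivative P).comp (-X)) ((W1 L).comp (-X)) (by
    intro h
    apply hW
    have := congrArg (fun Q : ℝ[X] => Q.comp (-X)) h
    simpa [comp_assoc] using this) ⟨(X * (B1 L) ^ 2).comp (-X), by rw [← mul_comp, key]⟩
  have hc' := (Finset.card_le_card (supp_comp (W1 L))).trans hc
  rw [roots_comp_neg_X, Multiset.countP_map] at hn
  have hn' : ((derivative P).roots.filter (· < 0)).card ≤ 2 ^ 2 ^ S.card - 1 := by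
    refine le_trans (le_of_eq ?_) (hn.trans (by omega))
    congr 1
    refine Multiset.filter_congr fun x _ => ?_
    simp
  rw [Multiset.countP_eq_card_filter] at hp
  have h5 : (derivative P).roots.card =
      ((derivative P).roots.filter (· < 0)).card +
      ((derivative P).roots.filter (0 < ·)).card := by
    conv_lhs => rw [← Multiset.filter_add_not (· < 0) (derivative P).roots, Multiset.card_add]
    congr 2
    refine Multiset.filter_congr fun x hx => ?_
    constructor
    · intro h
      rcases lt_or_eq_of_le (not_lt.1 h) with h | h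
      · exact h
      · exfalso
        rw [← h] at hx
        exact h0 ((mem_roots h1).1 hx)
    · intro h; exact not_lt.2 h.le
  rw [h5]
  omega

end Pool.Agent.CYD
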